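import Pool.Agent.H77.Kd.Lift

set_option autoImplicit false

/-!
# Diagrams of closed curves, cut at the base point
-/

namespace Pool.Agent.H77.Kd

theorem change_eq_zero {K : Type*} [Field K] {w : List Pass} (hw : IsCode w) {f : ℕ → Bool → K}
    (hf : TwCorner w 1 f)
    (h : ∀ (i : ℕ) (p : Pass), w[i]? = some p → p.isOver = true → jump f (i + 1) - jump f i = 0) :
    ∀ (i : ℕ) (p : Pass), w[i]? = some p → jump f (i + 1) - jump f i = 0 := by
  intro i p hi
  by_cases ho : p.isOver = true
  · exact h i p hi ho
  · obtain ⟨j, hj⟩ := exists_mate hw hi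
    have ho' : p.mate.isOver = true := by simp [Pass.mate]; simpa using ho
    have h2 := h j _ hj ho'
    by_cases hp : p.FromRight
    · have := hf.kirch hi hj hp
      rw [h2, mul_zero] at this
      linear_combination -this
    · have hp' : p.mate.FromRight := (fromRight_mate p).2 hp
      have h3 : w[i]? = some p.mate.mate := by rw [mate_mate]; exact hi
      have := hf.kirch hj h3 hp'
      rw [one_zpow, one_mul] at this
      linear_combination -this - h2

/-- In the diagram of a closed curve on the sphere all crossings have index zero. -/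
theorem all_kept {w : List Pass} (hw : IsCode w)
    (he : Nat.card (ClosedRegion w) = crossings w + 2) : ∀ p ∈ w, Kept w p := by
  obtain ⟨f, hf, -, hz, hδ⟩ := closed_surj (K := ℚ) hw he 1 (fun _ => 0)
  have hch := change_eq_zero hw hf hδ
  have hj : ∀ k, k ≤ w.length → jump f k = 1 := by
    intro k
    induction k with
    | zero => intro _; exact hz
    | succ k ih =>
      intro hk
      have h1 : w[k]? = some (w[k]'(by omega)) := List.getElem?_eq_getElem (by omega)
      have h2 := hch k _ h1
      rw [ih (by omega)] at h2
      linear_combination h2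
  have hv : ∀ k, k ≤ w.length → f k true = f 0 true - (ht w k : ℚ) := by
    intro k
    induction k with
    | zero => intro _; simp [ht_zero]
    | succ k ih =>
      intro hk
      have h1 : w[k]? = some (w[k]'(by omega)) := List.getElem?_eq_getElem (by omega)
      obtain ⟨j, h2⟩ := exists_mate hw h1
      have hjl := lt_of_get h2
      rw [ht_succ h1]
      by_cases hp : (w[k]'(by omega)).FromRight
      · rw [hf.stepR h1 h2 hp, hj _ (by omega), ih (by omega)]
        simp [sgn, hp]
        ring
      · have hp' := (fromRight_mate _).2 hp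
        have h3 : w[k]? = some (w[k]'(by omega)).mate.mate := by rw [mate_mate]; exact h1
        rw [hf.stepL one_ne_zero h2 h3 hp', hj _ (by omega), ih (by omega)]
        simp [sgn, hp]
        ring
  have key : ∀ (i j : ℕ) (p : Pass), w[i]? = some p → w[j]? = some p.mate → p.FromRight →
      Kept w p := by
    intro i j p hi hj' hp
    have hil := lt_of_get hi
    have hjl := lt_of_get hj'
    have h1 := (hf i j p hi hj' hp).1
    rw [one_zpow, one_mul, hv i (by omega), hv (j + 1) (by omega)] at h1
    have h2 : (ht w (j + 1) : ℚ) = ht w i := by linear_combination h1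
    rw [kept_iff hw hi hj' hp]
    have h3 : ht w (j + 1) = ht w i := by exact_mod_cast h2
    omega
  intro p hp
  obtain ⟨i, hi⟩ := exists_get hp
  obtain ⟨j, hj'⟩ := exists_mate hw hi
  by_cases hr : p.FromRight
  · exact key i j p hi hj' hr
  · have hi' : w[i]? = some p.mate.mate := by rw [mate_mate]; exact hi
    exact kept_mate.1 (key j i p.mate hj' hi' ((fromRight_mate p).2 hr))

theorem keep_eq {w : List Pass} (hw : IsCode w)
    (he : Nat.card (ClosedRegion w) = crossings w + 2) : keep w = w := by
  unfold keep
  rw [List.filter_eq_self]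
  intro p hp
  simpa using all_kept hw he p hp

/-- A closed curve on the sphere becomes an arc on the sphere. -/
theorem euler_cut {w : List Pass} (hw : IsCode w)
    (he : Nat.card (ClosedRegion w) = crossings w + 2) :
    Nat.card (ArcRegion w) = crossings w + 1 := by
  apply arc_card (K := ℚ) hw
  intro δ
  obtain ⟨f, hf, hc, hz, hδ⟩ := closed_surj (K := ℚ) hw he 0 δ
  have h0 : f 0 true = f 0 false := sub_eq_zero.1 hz
  exact ⟨f, hf, h0, by rw [← hc, ← hc]; exact h0, hδ⟩

/-- ... of height zero. -/
theorem height_cut {w : List Pass} (hw : IsCode w)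
    (he : Nat.card (ClosedRegion w) = crossings w + 2) :
    (Quot.mk _ (0, true) : ArcRegion w) = Quot.mk _ (Fin.last _, true) := by
  classical
  let U : Quot (ArcAdj w) → ℚ := fun x => if x = Quot.mk _ (Fin.last _, true) then 1 else 0
  obtain ⟨f, hf, hc, hz, hδ⟩ := closed_surj (K := ℚ) hw he 0
    (fun p => if hp : p ∈ ov w then changeL w (ArcAdj w) 1 U ⟨p, hp⟩ else 0)
  have h0 : f 0 true = f 0 false := sub_eq_zero.1 hz
  have h1 : f w.length true = f w.length false := by rw [← hc, ← hc]; exact h0
  obtain ⟨V, hV⟩ := descend (r := ArcAdj w) f (by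
      rintro ⟨x, b⟩ ⟨y, c⟩ (hxy | ⟨hxy, hx⟩)
      · exact corner_of_tw hf hxy
      · simp only at hxy hx
        subst hxy
        have h3 : f x true = f x false := by
          rcases hx with hx | hx
          · rw [hx]; exact h0
          · rw [hx]; exact h1
        cases b <;> cases c <;> simp [h3])
  have hj : ∀ k, k ≤ w.length → jump (fun k b => twL w (ArcAdj w) (1 : ℚ) k b V) k =
      jump f k := by
    intro k hk
    simp only [jump]
    rw [hV k hk, hV k hk]
  have hker : changeL w (ArcAdj w) 1 (U - V) = 0 := by
    rw [map_sub, sub_eq_zero]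
    funext p
    have h3 := get_idxOf (mem_ov.1 p.2).1
    have h4 := lt_of_get h3
    rw [changeL_apply w (ArcAdj w) 1 V, hj _ (by omega), hj _ (by omega),
      hδ _ _ h3 (mem_ov.1 p.2).2, dif_pos p.2]
  obtain ⟨c, hc'⟩ := arc_kernel hw _ hker
  have e1 := congrFun hc' (Quot.mk _ (0, true))
  have e2 := congrFun hc' (Quot.mk _ (Fin.last _, true))
  have v1 : V (Quot.mk _ (0, true)) = f 0 true := by
    rw [← hV 0 (Nat.zero_le _) true]
    simp only [twL, LinearMap.smul_apply, smul_eq_mul, one_zpow, one_mul]
    rw [valL_of_lt (by omega)]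
    rfl
  have v2 : V (Quot.mk _ (Fin.last _, true)) = f w.length true := by
    rw [← hV w.length le_rfl true]
    simp only [twL, LinearMap.smul_apply, smul_eq_mul, one_zpow, one_mul]
    rw [valL_of_lt (by omega)]
    rfl
  simp only [Pi.sub_apply] at e1 e2
  rw [v1] at e1
  rw [v2, ← hc] at e2
  have e3 : U (Quot.mk _ (0, true)) = U (Quot.mk _ (Fin.last _, true)) := by
    linear_combination e1 - e2
  have e4 : U (Quot.mk _ (Fin.last _, true)) = 1 := if_pos rfl
  by_contra hne
  have e5 : U (Quot.mk _ (0, true)) = 0 := if_neg hne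
  rw [e4, e5] at e3
  norm_num at e3

end Pool.Agent.H77.Kd
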