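import Mathlib

set_option autoImplicit false

/-!
# Knot diagrams and knotoid diagrams on the sphere, and their Gauss codes

A diagram on the sphere of an oriented closed curve (a knot) or of an oriented arc (a knotoid) is
given by its signed Gauss code: running along the curve from a base point which is not a crossing
(for an arc: from the tail to the head) one writes down, at every passage through a crossing, the
name of the crossing, whether one passes over or under, and the sign of the crossing. Up to
(orientation preserving) isotopy of the sphere the diagram is determined by this code, since the
diagram is connected. The codes which come from the sphere are recognised by Euler's formula: the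
number of regions of the closed oriented surface which is obtained from the code is the right one.
-/

namespace Pool.Agent.H77.Kd

/-- One of the two passages through a crossing. -/
structure Pass where
  /-- the name of the crossing -/
  crossing : ℕ
  /-- whether one passes over (`true`) or under (`false`) -/
  isOver : Bool
  /-- whether the crossing is positive (`true`) or negative (`false`) -/
  isPos : Bool
deriving DecidableEq

/-- The other passage through the same crossing. -/
def Pass.mate (p : Pass) : Pass := ⟨p.crossing, !p.isOver, p.isPos⟩

/-- At the passage `p` the other strand of the crossing runs from the right to the left. (At a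
positive crossing the lower strand crosses the upper one from right to left, and so the upper one
crosses the lower one from left to right; at a negative crossing it is the other way round.) -/
def Pass.FromRight (p : Pass) : Prop := p.isOver = p.isPos

instance (p : Pass) : Decidable p.FromRight := inferInstanceAs (Decidable (_ = _))

/-- Signed Gauss codes: every crossing is passed exactly twice, once over and once under. -/
def IsCode (w : List Pass) : Prop :=
  w.Nodup ∧ ∀ p ∈ w, p.mate ∈ w ∧ ∀ q ∈ w, q.crossing = p.crossing → q = p ∨ q = p.mate

/-- The number of crossings, i.e. the number of passages over a crossing. -/
def crossings (w : List Pass) : ℕ := (w.filter fun p => p.isOver).length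

/-- The passages of `w` have the numbers `0, 1, ..., w.length - 1`. They divide the curve into the
edges number `0, 1, ..., w.length`; the passage number `i` leads from the edge `i` to the edge
`i + 1`. The left side of the edge `k` is `(k, true)`, its right side is `(k, false)`.
`Corner w x y` says that the sides `x` and `y` are the two sides of one of the four corners at a
crossing, where the passage number `j` through the crossing, seen from the passage number `i`, runs
from right to left. (Let the strand of the passage `i` run from west to east, and the strand of the
passage `j` from south to north.) -/
inductive Corner (w : List Pass) : ℕ × Bool → ℕ × Bool → Prop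
  | northwest (i j : ℕ) (p : Pass) (hi : w[i]? = some p) (hj : w[j]? = some p.mate)
      (hp : p.FromRight) : Corner w (i, true) (j + 1, true)
  | northeast (i j : ℕ) (p : Pass) (hi : w[i]? = some p) (hj : w[j]? = some p.mate)
      (hp : p.FromRight) : Corner w (i + 1, true) (j + 1, false)
  | southeast (i j : ℕ) (p : Pass) (hi : w[i]? = some p) (hj : w[j]? = some p.mate)
      (hp : p.FromRight) : Corner w (i + 1, false) (j, false)
  | southwest (i j : ℕ) (p : Pass) (hi : w[i]? = some p) (hj : w[j]? = some p.mate)
      (hp : p.FromRight) : Corner w (i, false) (j, true)

/-- Two sides of edges of the diagram of an arc with the code `w` are next to each other in the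
boundary of a region: at a corner of a crossing, or at the tail or the head of the arc. -/
def ArcAdj (w : List Pass) (x y : Fin (w.length + 1) × Bool) : Prop :=
  Corner w (x.1, x.2) (y.1, y.2) ∨ (x.1 = y.1 ∧ ((x.1 : ℕ) = 0 ∨ (x.1 : ℕ) = w.length))

/-- The same for the closed curve with the code `w`; here the last edge and the first edge are
the same edge. -/
def ClosedAdj (w : List Pass) (x y : Fin (w.length + 1) × Bool) : Prop :=
  Corner w (x.1, x.2) (y.1, y.2) ∨ (x.2 = y.2 ∧ (x.1 : ℕ) = 0 ∧ (y.1 : ℕ) = w.length)

/-- The regions of the diagram of the arc with the code `w`. -/
def ArcRegion (w : List Pass) : Type := Quot (ArcAdj w)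

/-- The regions of the diagram of the closed curve with the code `w`. -/
def ClosedRegion (w : List Pass) : Type := Quot (ClosedAdj w)

/-- A knotoid diagram on the sphere, up to isotopy of the sphere. With `n` crossings it has `n + 2`
vertices (crossings, tail and head) and `2 n + 1` edges; so Euler's formula says that there are
`n + 1` regions. -/
structure KnotoidDiagram where
  /-- the Gauss code, read from the tail to the head -/
  code : List Pass
  isCode : IsCode code
  euler : Nat.card (ArcRegion code) = crossings code + 1

/-- A knot diagram on the sphere with a base point, up to isotopy of the sphere. With `n`
crossings it has `n` vertices and `2 n` edges; so Euler's formula says that there are `n + 2`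
regions (this is also true for `n = 0`). -/
structure KnotDiagram where
  /-- the Gauss code, read from the base point -/
  code : List Pass
  isCode : IsCode code
  euler : Nat.card (ClosedRegion code) = crossings code + 2

/-- `Triangle t m b`: there are three strands, a top, a middle and a bottom one, which form a
triangle; `x` is the crossing of the top and the middle strand, `y` of the top and the bottom
strand, `z` of the middle and the bottom strand (`x`, `y`, `z` are the passages over). The lists
`t`, `m`, `b` are the passages of the three strands through these crossings, in the order of the
orientation of the strand: e.g. `ot = true` means that the top strand first passes `x` and then `y`.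
The two conditions say that the orders and the signs fit together, i.e. that there are three
oriented lines in the plane which intersect in this way. -/
inductive Triangle : List Pass → List Pass → List Pass → Prop
  | mk (x y z : Pass) (hx : x.isOver = true) (hy : y.isOver = true) (hz : z.isOver = true)
      (ot om ob : Bool) (h₁ : (ob == y.isPos) = (om == x.isPos)) (h₂ : (ot == y.isPos) = (om == z.isPos)) :
      Triangle (if ot then [x, y] else [y, x]) (if om then [x.mate, z] else [z, x.mate])
        (if ob then [y.mate, z.mate] else [z.mate, y.mate])

/-- Reidemeister moves of Gauss codes. (The moves of types I and II are written in the direction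
which creates crossings.) -/
inductive Reidemeister : List Pass → List Pass → Prop
  /-- type I -/
  | one (A B : List Pass) (p : Pass) : Reidemeister (A ++ B) (A ++ [p, p.mate] ++ B)
  /-- type II, two strands which run in the same direction -/
  | twoParallel (A B C : List Pass) (p q : Pass) (ho : p.isOver = q.isOver) (hs : p.isPos ≠ q.isPos) :
      Reidemeister (A ++ B ++ C) (A ++ [p, q] ++ B ++ [p.mate, q.mate] ++ C)
  /-- type II, two strands which run in opposite directions -/
  | twoOpposite (A B C : List Pass) (p q : Pass) (ho : p.isOver = q.isOver) (hs : p.isPos ≠ q.isPos) :
      Reidemeister (A ++ B ++ C) (A ++ [p, q] ++ B ++ [q.mate, p.mate] ++ C)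
  /-- type III -/
  | three (A B C D X Y Z t m b : List Pass) (h : Triangle t m b)
      (hp : [X, Y, Z].Perm [t, m, b]) :
      Reidemeister (A ++ X ++ B ++ Y ++ C ++ Z ++ D)
        (A ++ X.reverse ++ B ++ Y.reverse ++ C ++ Z.reverse ++ D)

/-- The codes differ only in the names of the crossings. -/
def Renamed (w v : List Pass) : Prop :=
  ∃ f : ℕ → ℕ, Function.Injective f ∧ v = w.map fun p => ⟨f p.crossing, p.isOver, p.isPos⟩

/-- Knotoid diagrams which differ by a Reidemeister move (away from the end points), or only in
the names of the crossings. -/
def KnotoidMove (D E : KnotoidDiagram) : Prop :=
  Reidemeister D.code E.code ∨ Renamed D.code E.code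

/-- Knot diagrams which differ by a Reidemeister move (away from the base point), or only in the
names of the crossings, or only in the position of the base point. -/
def KnotMove (D E : KnotDiagram) : Prop :=
  Reidemeister D.code E.code ∨ Renamed D.code E.code ∨ D.code.IsRotated E.code

/-- Knotoids: classes of knotoid diagrams on the sphere, modulo the equivalence relation generated
by `KnotoidMove`. -/
def Knotoid : Type := Quot KnotoidMove

/-- Knots: classes of knot diagrams on the sphere, modulo the equivalence relation generated by
`KnotMove`. -/
def Knot : Type := Quot KnotMove

/-- `D` is a diagram of the knot `k`. -/
def IsKnotDiagramOf (D : KnotDiagram) (k : Knot) : Prop := Quot.mk _ D = k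

/-- `E` is a diagram of the knotoid `K`. -/
def IsKnotoidDiagramOf (E : KnotoidDiagram) (K : Knotoid) : Prop := Quot.mk _ E = K

/-- The crossing number of a knot. -/
noncomputable def Knot.cr (k : Knot) : ℕ :=
  sInf {n | ∃ D : KnotDiagram, IsKnotDiagramOf D k ∧ crossings D.code = n}

/-- The crossing number of a knotoid. -/
noncomputable def Knotoid.cr (K : Knotoid) : ℕ :=
  sInf {n | ∃ E : KnotoidDiagram, IsKnotoidDiagramOf E K ∧ crossings E.code = n}

/-- `K` is the knot-type knotoid `k•`: it has a diagram which is obtained from a diagram of `k` by
removing a small arc at the base point. -/
def IsBullet (k : Knot) (K : Knotoid) : Prop :=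
  ∃ (D : KnotDiagram) (E : KnotoidDiagram),
    IsKnotDiagramOf D k ∧ IsKnotoidDiagramOf E K ∧ E.code = D.code

/-- The diagram has height `0`: its tail and its head lie in the boundary of the same region. -/
def HeightZero (E : KnotoidDiagram) : Prop :=
  (Quot.mk _ (0, true) : ArcRegion E.code) = Quot.mk _ (Fin.last _, true)

end Pool.Agent.H77.Kd
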