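import Pool.Agent.H77.Kd.Reg

set_option autoImplicit false

/-!
# The crossings of index zero

The diagram of an arc on the sphere is lifted to the universal cover of the sphere without the tail
and the head. One lift of the arc is a diagram of a long knot in the plane, whose crossings are the
crossings of index `0` of the diagram.
-/

namespace Pool.Agent.H77.Kd

/-- the level of a passage -/
def lev (w : List Pass) (p : Pass) : ℤ := ht w (w.idxOf p) + if p.FromRight then 1 else 0

/-- The index of the crossing is zero. -/
def Kept (w : List Pass) (p : Pass) : Prop := lev w p = lev w p.mate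

instance (w : List Pass) : DecidablePred (Kept w) := fun _ => inferInstanceAs (Decidable (_ = _))

/-- The passages through crossings of index zero. -/
def keep (w : List Pass) : List Pass := w.filter fun p => Kept w p

theorem kept_mate {w : List Pass} {p : Pass} : Kept w p.mate ↔ Kept w p := by
  unfold Kept
  rw [mate_mate]
  exact eq_comm

theorem isCode_filter {w : List Pass} (hw : IsCode w) (P : Pass → Prop) [DecidablePred P]
    (hP : ∀ p, P p.mate ↔ P p) : IsCode (w.filter fun p => P p) := by
  refine ⟨hw.1.filter _, ?_⟩
  intro p hp
  rw [List.mem_filter, decide_eq_true_eq] at hp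
  refine ⟨?_, ?_⟩
  · rw [List.mem_filter, decide_eq_true_eq]
    exact ⟨(hw.2 p hp.1).1, (hP p).2 hp.2⟩
  · intro q hq
    rw [List.mem_filter] at hq
    exact (hw.2 p hp.1).2 q hq.1

theorem isCode_keep {w : List Pass} (hw : IsCode w) : IsCode (keep w) :=
  isCode_filter hw _ fun _ => kept_mate

theorem keep_crossings_le (w : List Pass) : crossings (keep w) ≤ crossings w := by
  unfold crossings keep
  rw [List.filter_filter]
  have : (w.filter fun p => p.isOver && decide (Kept w p)).length
      ≤ (w.filter fun p => p.isOver).length := by
    apply List.Sublist.length_le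
    apply List.monotone_filter_right
    intro p hp
    simp only [Bool.and_eq_true] at hp
    exact hp.1
  exact this

theorem lev_eq {w : List Pass} (hw : IsCode w) {p : Pass} {i : ℕ} (hi : w[i]? = some p) :
    lev w p = ht w i + if p.FromRight then 1 else 0 := by
  unfold lev
  rw [get_inj hw (get_idxOf (mem_of_get hi)) hi]

/-- The exponent of the twist at a crossing is zero iff the crossing has index zero. -/
theorem kept_iff {w : List Pass} (hw : IsCode w) {p : Pass} {i j : ℕ} (hi : w[i]? = some p)
    (hj : w[j]? = some p.mate) (hp : p.FromRight) :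
    Kept w p ↔ ht w (j + 1) - ht w i = 0 := by
  have hp' : ¬ p.mate.FromRight := by rw [fromRight_mate]; simpa using hp
  unfold Kept
  rw [lev_eq hw hi, lev_eq hw hj, if_pos hp, if_neg hp', ht_succ hj, sgn_mate]
  simp only [sgn, if_pos hp]
  constructor <;> intro h <;> omega

/-! ### The number of kept passages in front of an edge -/

section Filter

variable {w : List Pass} (P : Pass → Prop) [DecidablePred P]

/-- the number of passages with the property `P` in front of the edge `k` -/
def cnt (w : List Pass) (k : ℕ) : ℕ := ((w.take k).filter fun p => P p).length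

theorem cnt_zero : cnt P w 0 = 0 := by simp [cnt]

theorem cnt_length : cnt P w w.length = (w.filter fun p => P p).length := by simp [cnt]

theorem cnt_succ {k : ℕ} {p : Pass} (h : w[k]? = some p) :
    cnt P w (k + 1) = cnt P w k + if P p then 1 else 0 := by
  unfold cnt
  rw [List.take_add_one, h, List.filter_append, List.length_append]
  congr 1
  by_cases hp : P p <;> simp [hp]

theorem get_filter {k : ℕ} {p : Pass} (h : w[k]? = some p) (hp : P p) :
    (w.filter fun p => P p)[cnt P w k]? = some p := by
  have hk := lt_of_get h
  have h1 : w = w.take k ++ p :: w.drop (k + 1) := by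
    have h2 : w.drop k = p :: w.drop (k + 1) := by
      rw [List.drop_eq_getElem_cons hk]
      congr 1
      rw [List.getElem?_eq_getElem hk] at h
      exact Option.some.inj h
    rw [← h2, List.take_append_drop]
  have h3 : (w.filter fun p => P p) =
      (w.take k).filter (fun p => P p) ++ p :: (w.drop (k + 1)).filter (fun p => P p) := by
    conv_lhs => rw [h1]
    rw [List.filter_append, List.filter_cons_of_pos (by simpa using hp)]
  rw [h3]
  unfold cnt
  rw [List.getElem?_append_right (le_refl _)]
  simp

theorem cnt_mono {k l : ℕ} (h : k ≤ l) : cnt P w k ≤ cnt P w l := by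
  unfold cnt
  apply List.Sublist.length_le
  apply List.Sublist.filter
  exact List.IsPrefix.sublist (List.take_prefix_take_left h)

end Filter

/-! ### Coefficients -/

open HahnSeries in
theorem coeff_zpow_mul_C {n : ℤ} (hn : n ≠ 0) (c : ℚ) :
    (((single (1 : ℤ) (1 : ℚ) : LaurentSeries ℚ) ^ n * C c)).coeff 0 = 0 := by
  rw [← RatFunc.single_zpow]
  show (single (n : ℤ) (1 : ℚ) * single 0 c).coeff 0 = 0
  rw [single_mul_single, coeff_single_of_ne]
  simpa using hn.symm

theorem coeff_C (c : ℚ) : (HahnSeries.C c : LaurentSeries ℚ).coeff 0 = c :=
  HahnSeries.coeff_single_same 0 c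

/-- A diagram of an arc on the sphere: the passages through the crossings of index zero are the
code of a closed curve on the sphere. -/
theorem euler_keep {w : List Pass} (hw : IsCode w)
    (he : Nat.card (ArcRegion w) = crossings w + 1) :
    Nat.card (ClosedRegion (keep w)) = crossings (keep w) + 2 := by
  apply closed_card (K := ℚ) (isCode_keep hw)
  intro z₀ δ₀
  -- the twisted function
  set T : LaurentSeries ℚ := HahnSeries.single (1 : ℤ) (1 : ℚ) with hTdef
  have hT : T ≠ 0 := by
    rw [hTdef]
    exact HahnSeries.single_ne_zero one_ne_zero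
  have hT1 : T ≠ 1 := by
    intro h
    have h1 := congrArg (fun s : LaurentSeries ℚ => s.coeff 0) h
    simp only [hTdef] at h1
    rw [HahnSeries.coeff_single_of_ne (by norm_num)] at h1
    simp at h1
  obtain ⟨f, hf, hf0, hfn, hfz, hfδ⟩ := arc_surj hw he hT hT1 (HahnSeries.C z₀)
    (fun p => if Kept w p then HahnSeries.C (δ₀ p) else 0)
  -- the change of the jump at every passage
  let d : Pass → ℚ := fun p =>
    if Kept w p then (if p.isOver then δ₀ p else - δ₀ p.mate) else 0
  have hd_mate : ∀ p, d p.mate = - d p := by
    intro p
    simp only [d]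
    by_cases hk : Kept w p
    · rw [if_pos hk, if_pos (kept_mate.2 hk), mate_mate]
      by_cases ho : p.isOver = true
      · have : ¬ p.mate.isOver = true := by simp [Pass.mate, ho]
        rw [if_pos ho, if_neg this]
      · have : p.mate.isOver = true := by simp [Pass.mate]; simpa using ho
        rw [if_neg ho, if_pos this, neg_neg]
    · rw [if_neg hk, if_neg (fun h => hk (kept_mate.1 h)), neg_zero]
  have hchange : ∀ (i : ℕ) (p : Pass), w[i]? = some p →
      jump f (i + 1) - jump f i = HahnSeries.C (d p) := by
    have hover : ∀ (i : ℕ) (p : Pass), w[i]? = some p → p.isOver = true →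
        jump f (i + 1) - jump f i = HahnSeries.C (d p) := by
      intro i p hi ho
      rw [hfδ i p hi ho]
      simp only [d]
      by_cases hk : Kept w p
      · rw [if_pos hk, if_pos hk, if_pos ho]
      · rw [if_neg hk, if_neg hk, map_zero]
    intro i p hi
    by_cases ho : p.isOver = true
    · exact hover i p hi ho
    · obtain ⟨j, hj⟩ := exists_mate hw hi
      have ho' : p.mate.isOver = true := by simp [Pass.mate]; simpa using ho
      have h2 := hover j _ hj ho'
      have hdp : d p = - d p.mate := by rw [hd_mate, neg_neg]
      by_cases hp : p.FromRight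
      · have h3 := hf.kirch hi hj hp
        rw [h2] at h3
        by_cases hk : Kept w p
        · rw [(kept_iff hw hi hj hp).1 hk, zpow_zero, one_mul] at h3
          rw [hdp, map_neg]
          linear_combination -h3
        · have h4 : d p.mate = 0 := by
            simp only [d]
            rw [if_neg (fun h => hk (kept_mate.1 h))]
          rw [h4, map_zero, mul_zero] at h3
          rw [hdp, h4, neg_zero, map_zero]
          linear_combination -h3
      · have hp' : p.mate.FromRight := (fromRight_mate p).2 hp
        have hi' : w[i]? = some p.mate.mate := by rw [mate_mate]; exact hi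
        have h3 := hf.kirch hj hi' hp'
        by_cases hk : Kept w p
        · rw [(kept_iff hw hj hi' hp').1 (kept_mate.2 hk), zpow_zero, one_mul] at h3
          rw [hdp, map_neg]
          linear_combination -h3 - h2
        · have h4 : d p.mate = 0 := by
            simp only [d]
            rw [if_neg (fun h => hk (kept_mate.1 h))]
          rw [h4, map_zero] at h2
          have h5 : jump f j - jump f (j + 1) = 0 := by linear_combination -h2
          rw [h5] at h3
          rw [hdp, h4, neg_zero, map_zero]
          rcases mul_eq_zero.1 h3.symm with h6 | h6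
          · exact absurd h6 (zpow_ne_zero _ hT)
          · exact h6
  -- the jumps are rational constants
  have hjump : ∀ k, k ≤ w.length →
      jump f k = HahnSeries.C (z₀ + ((w.take k).map d).sum) := by
    intro k
    induction k with
    | zero => intro _; simpa using hfz
    | succ k ih =>
      intro hk
      have h1 : w[k]? = some (w[k]'(by omega)) := List.getElem?_eq_getElem (by omega)
      have h2 := hchange k _ h1
      have h3 : (w.take (k + 1)).map d = (w.take k).map d ++ [d (w[k]'(by omega))] := by
        rw [List.take_add_one, h1, List.map_append]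
        rfl
      rw [h3, List.sum_append, List.sum_singleton, ← add_assoc, map_add, ← ih (by omega), ← h2]
      ring
  have hsum : (w.map d).sum = 0 := by
    have h1 : (w.map d).sum = ∑ p ∈ w.toFinset, d p := by
      rw [List.sum_toFinset _ hw.1]
    rw [h1]
    apply Finset.sum_involution (fun p _ => p.mate)
    · intro p _
      rw [hd_mate]; ring
    · intro p _ _
      exact mate_ne p
    · intro p _
      exact mate_mate p
    · intro p hp
      rw [List.mem_toFinset] at hp ⊢
      exact (hw.2 p hp).1
  have hjn : jump f w.length = jump f 0 := by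
    rw [hjump _ le_rfl, hjump 0 (Nat.zero_le _), List.take_length, hsum]
    simp
  -- the coefficient of `T ^ 0`
  let g : ℕ → Bool → ℚ := fun k b => (f k b).coeff 0
  have hgjump : ∀ k, jump g k = (jump f k).coeff 0 := fun k => rfl
  have hgjump' : ∀ k, k ≤ w.length → jump g k = z₀ + ((w.take k).map d).sum := by
    intro k hk
    rw [hgjump, hjump k hk, coeff_C]
  have hg_change : ∀ (i : ℕ) (p : Pass), w[i]? = some p → jump g (i + 1) - jump g i = d p := by
    intro i p hi
    have h1 := hchange i p hi
    have h2 : jump g (i + 1) - jump g i = (jump f (i + 1) - jump f i).coeff 0 := rfl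
    rw [h2, h1, coeff_C]
  have hends : ∀ b, g 0 b = g w.length b := by
    have h1 : f 0 false = f w.length false := by
      have h2 : (T - 1) * (f 0 false - f w.length false) = 0 := by
        have h3 : jump f w.length = jump f 0 := hjn
        unfold jump at h3
        linear_combination -h3 + hfn - hf0
      rcases mul_eq_zero.1 h2 with h4 | h4
      · exact absurd (sub_eq_zero.1 h4) hT1
      · exact sub_eq_zero.1 h4
    intro b
    cases b with
    | false => simp only [g]; rw [h1]
    | true => simp only [g]; rw [hf0, hfn, h1]
  have hskip : ∀ (i : ℕ) (p : Pass), w[i]? = some p → ¬ Kept w p → ∀ b, g (i + 1) b = g i b := by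
    intro i p hi hk
    obtain ⟨j, hj⟩ := exists_mate hw hi
    have hil := lt_of_get hi
    have hjl := lt_of_get hj
    have h1 : g (i + 1) true = g i true := by
      by_cases hp : p.FromRight
      · have h3 := hf.stepR hi hj hp
        have hn : ht w (j + 1) - ht w i ≠ 0 := fun h => hk ((kept_iff hw hi hj hp).2 h)
        simp only [g]
        rw [h3, hjump _ (by omega)]
        rw [HahnSeries.coeff_sub, coeff_zpow_mul_C hn, sub_zero]
      · have hp' : p.mate.FromRight := (fromRight_mate p).2 hp
        have hi' : w[i]? = some p.mate.mate := by rw [mate_mate]; exact hi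
        have h3 := hf.stepL hT hj hi' hp'
        have hn : -(ht w (i + 1) - ht w j) ≠ 0 := by
          intro h
          apply hk
          rw [← kept_mate]
          exact (kept_iff hw hj hi' hp').2 (by omega)
        simp only [g]
        rw [h3, hjump _ (by omega)]
        rw [HahnSeries.coeff_add, coeff_zpow_mul_C hn, add_zero]
    intro b
    cases b with
    | true => exact h1
    | false =>
      have h2 := hg_change i p hi
      have h3 : d p = 0 := by simp only [d]; rw [if_neg hk]
      rw [h3] at h2
      unfold jump at h2
      linear_combination h1 - h2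
  -- functions on the edges of the new diagram
  have hconst : ∀ (n k : ℕ), k + n ≤ w.length → cnt (Kept w) w (k + n) = cnt (Kept w) w k →
      ∀ b, g (k + n) b = g k b := by
    intro n
    induction n with
    | zero => intro k _ _ b; rfl
    | succ n ih =>
      intro k hk hc b
      have h1 : w[k + n]? = some (w[k + n]'(by omega)) := List.getElem?_eq_getElem (by omega)
      have h2 := cnt_succ (Kept w) h1
      have h3 := cnt_mono (w := w) (Kept w) (Nat.le_add_right k n)
      rw [show k + (n + 1) = k + n + 1 from rfl] at hc ⊢
      by_cases hp : Kept w (w[k + n]'(by omega))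
      · rw [if_pos hp] at h2
        omega
      · rw [if_neg hp] at h2
        rw [hskip _ _ h1 hp b]
        exact ih k (by omega) (by omega) b
  have hwd : ∀ k l, k ≤ w.length → l ≤ w.length → cnt (Kept w) w k = cnt (Kept w) w l →
      ∀ b, g k b = g l b := by
    intro k l hk hl hc b
    rcases le_total k l with h | h
    · obtain ⟨n, rfl⟩ := Nat.exists_eq_add_of_le h
      exact (hconst n k hl hc.symm b).symm
    · obtain ⟨n, rfl⟩ := Nat.exists_eq_add_of_le h
      exact hconst n l hk hc b
  classical
  let G : ℕ → Bool → ℚ := fun m b =>
    if h : ∃ k, k ≤ w.length ∧ cnt (Kept w) w k = m then g h.choose b else 0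
  have hG : ∀ k, k ≤ w.length → ∀ b, G (cnt (Kept w) w k) b = g k b := by
    intro k hk b
    have h : ∃ l, l ≤ w.length ∧ cnt (Kept w) w l = cnt (Kept w) w k := ⟨k, hk, rfl⟩
    simp only [G]
    rw [dif_pos h]
    exact hwd _ _ h.choose_spec.1 hk h.choose_spec.2 b
  have hpos : ∀ (m : ℕ) (p : Pass), (keep w)[m]? = some p → ∃ i, w[i]? = some p ∧ Kept w p ∧
      m = cnt (Kept w) w i ∧ m + 1 = cnt (Kept w) w (i + 1) := by
    intro m p hm
    have h1 := mem_of_get hm
    unfold keep at h1
    rw [List.mem_filter, decide_eq_true_eq] at h1
    obtain ⟨i, hi⟩ := exists_get h1.1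
    have h2 : (keep w)[cnt (Kept w) w i]? = some p := get_filter (Kept w) hi h1.2
    have h3 : m = cnt (Kept w) w i := get_inj (isCode_keep hw) hm h2
    refine ⟨i, hi, h1.2, h3, ?_⟩
    rw [cnt_succ (Kept w) hi, if_pos h1.2, h3]
  refine ⟨G, ?_, ?_, ?_, ?_⟩
  · intro i' j' p hi' hj' hp
    obtain ⟨i, hi, hk, e1, e2⟩ := hpos i' p hi'
    obtain ⟨j, hj, -, e3, e4⟩ := hpos j' p.mate hj'
    have hil := lt_of_get hi
    have hjl := lt_of_get hj
    obtain ⟨c1, c2, c3, c4⟩ := hf i j p hi hj hp
    rw [(kept_iff hw hi hj hp).1 hk, zpow_zero, one_mul] at c1 c2 c3 c4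
    rw [one_zpow, one_mul, one_mul, one_mul, one_mul, e4, e2, e1, e3]
    rw [hG _ (by omega), hG _ (by omega), hG _ (by omega), hG _ (by omega), hG _ (by omega),
      hG _ (by omega), hG _ (by omega), hG _ (by omega)]
    simp only [g]
    rw [c1, c2, c3, c4]
    exact ⟨rfl, rfl, rfl, rfl⟩
  · intro b
    have h1 := hG 0 (Nat.zero_le _) b
    have h2 := hG w.length le_rfl b
    rw [cnt_zero] at h1
    rw [cnt_length] at h2
    rw [h1]
    unfold keep
    rw [h2]
    exact hends b
  · have h1 := hG 0 (Nat.zero_le _)
    rw [cnt_zero] at h1
    have h2 := hgjump' 0 (Nat.zero_le _)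
    unfold jump at h2 ⊢
    rw [h1, h1, h2]
    simp
  · intro m p hm ho
    obtain ⟨i, hi, hk, e1, e2⟩ := hpos m p hm
    have hil := lt_of_get hi
    have h1 := hg_change i p hi
    unfold jump at h1 ⊢
    rw [e2, e1, hG _ (by omega), hG _ (by omega), hG _ (by omega), hG _ (by omega), h1]
    simp only [d]
    rw [if_pos hk, if_pos ho]

end Pool.Agent.H77.Kd
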