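import Pool.Agent.H77.Kd.Defs

set_option autoImplicit false

/-!
# Functions on the regions of a diagram
-/

namespace Pool.Agent.H77.Kd

open Module

/-! ### Three remarks from linear algebra -/

section Generic

variable {K : Type*} [Field K] {S : Type*} [Finite S] {M : Type*} [AddCommGroup M] [Module K M]
  [FiniteDimensional K M]

theorem finrank_fun : finrank K (S → K) = Nat.card S := by
  classical
  have : Fintype S := Fintype.ofFinite S
  rw [Module.finrank_fintype_fun_eq_card, Nat.card_eq_fintype_card]

theorem surj_of_inj (Φ : (S → K) →ₗ[K] M) (hker : ∀ u, Φ u = 0 → u = 0)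
    (hcard : Nat.card S = finrank K M) : Function.Surjective Φ := by
  classical
  have : Fintype S := Fintype.ofFinite S
  have hinj : Function.Injective Φ := by
    rw [injective_iff_map_eq_zero]
    exact hker
  exact (LinearMap.injective_iff_surjective_of_finrank_eq_finrank
    (by rw [finrank_fun, hcard])).1 hinj

omit [FiniteDimensional K M] in
theorem finrank_ker_le (Φ : (S → K) →ₗ[K] M) (hker : ∀ u, Φ u = 0 → ∃ c, u = fun _ => c) :
    finrank K (LinearMap.ker Φ) ≤ 1 := by
  classical
  have : Fintype S := Fintype.ofFinite S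
  have h : LinearMap.ker Φ ≤ Submodule.span K {fun _ : S => (1 : K)} := by
    intro u hu
    obtain ⟨c, rfl⟩ := hker u hu
    rw [Submodule.mem_span_singleton]
    exact ⟨c, by ext; simp⟩
  refine (Submodule.finrank_mono h).trans ?_
  refine (finrank_span_le_card _).trans ?_
  simp

theorem surj_of_const_ker (Φ : (S → K) →ₗ[K] M) (hker : ∀ u, Φ u = 0 → ∃ c, u = fun _ => c)
    (hcard : Nat.card S = finrank K M + 1) : Function.Surjective Φ := by
  classical
  have : Fintype S := Fintype.ofFinite S
  have h1 := LinearMap.finrank_range_add_finrank_ker Φ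
  rw [finrank_fun, hcard] at h1
  have h2 := finrank_ker_le Φ hker
  have h3 : finrank K M ≤ finrank K (LinearMap.range Φ) := by omega
  rw [← LinearMap.range_eq_top]
  apply Submodule.eq_top_of_finrank_eq
  exact le_antisymm (Submodule.finrank_le _) h3

omit [FiniteDimensional K M] in
theorem card_of_surj [Nonempty S] (Φ : (S → K) →ₗ[K] M)
    (hker : ∀ u, Φ u = 0 → ∃ c, u = fun _ => c)
    (hc : Φ (fun _ => 1) = 0) (hs : Function.Surjective Φ) : Nat.card S = finrank K M + 1 := by
  classical
  have : Fintype S := Fintype.ofFinite S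
  have h1 := LinearMap.finrank_range_add_finrank_ker Φ
  rw [finrank_fun, LinearMap.range_eq_top.2 hs, finrank_top] at h1
  have h2 := finrank_ker_le Φ hker
  have h3 : finrank K (LinearMap.ker Φ) ≠ 0 := by
    intro h
    have h4 := Submodule.finrank_eq_zero.1 h
    have h5 : (fun _ : S => (1 : K)) ∈ LinearMap.ker Φ := hc
    rw [h4, Submodule.mem_bot] at h5
    obtain ⟨s⟩ := ‹Nonempty S›
    exact one_ne_zero (congrFun h5 s)
  omega

end Generic


/-! ### Signs and partial sums -/

/-- `1` if the other strand runs from right to left, `-1` if it runs from left to right. -/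
def sgn (p : Pass) : ℤ := if p.FromRight then 1 else -1

theorem mate_mate (p : Pass) : p.mate.mate = p := by
  cases p; simp [Pass.mate]

theorem mate_ne (p : Pass) : p.mate ≠ p := by
  cases p with
  | mk c o s => cases o <;> simp [Pass.mate]

theorem fromRight_mate (p : Pass) : p.mate.FromRight ↔ ¬ p.FromRight := by
  rcases p with ⟨c, o, s⟩
  cases o <;> cases s <;> simp [Pass.mate, Pass.FromRight]

theorem sgn_mate (p : Pass) : sgn p.mate = - sgn p := by
  unfold sgn
  by_cases h : p.FromRight
  · have h' : ¬ p.mate.FromRight := by rw [fromRight_mate]; simpa using h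
    rw [if_pos h, if_neg h']
  · have h' : p.mate.FromRight := by rw [fromRight_mate]; exact h
    rw [if_neg h, if_pos h']; simp

/-- partial sums of the signs -/
def ht (w : List Pass) (k : ℕ) : ℤ := ((w.take k).map sgn).sum

theorem ht_zero (w : List Pass) : ht w 0 = 0 := by simp [ht]

theorem ht_succ {w : List Pass} {k : ℕ} {p : Pass} (h : w[k]? = some p) :
    ht w (k + 1) = ht w k + sgn p := by
  unfold ht
  rw [List.take_add_one, h]
  simp

theorem lt_of_get {w : List Pass} {k : ℕ} {p : Pass} (h : w[k]? = some p) : k < w.length := by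
  by_contra hk
  rw [List.getElem?_eq_none (by omega)] at h
  exact absurd h (by simp)

theorem sum_sgn {w : List Pass} (hw : IsCode w) : (w.map sgn).sum = 0 := by
  have h1 : (w.map sgn).sum = ∑ p ∈ w.toFinset, sgn p := by
    rw [List.sum_toFinset _ hw.1]
  rw [h1]
  apply Finset.sum_involution (fun p _ => p.mate)
  · intro p _
    rw [sgn_mate]; ring
  · intro p _ _
    exact mate_ne p
  · intro p _
    exact mate_mate p
  · intro p hp
    rw [List.mem_toFinset] at hp ⊢
    exact (hw.2 p hp).1

theorem ht_length {w : List Pass} (hw : IsCode w) : ht w w.length = 0 := by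
  unfold ht
  rw [List.take_length]
  exact sum_sgn hw

theorem exists_get {w : List Pass} {p : Pass} (hp : p ∈ w) : ∃ i : ℕ, w[i]? = some p := by
  obtain ⟨i, hi, h⟩ := List.mem_iff_getElem.1 hp
  exact ⟨i, by rw [List.getElem?_eq_getElem hi, h]⟩

theorem mem_of_get {w : List Pass} {p : Pass} {i : ℕ} (h : w[i]? = some p) : p ∈ w :=
  List.mem_of_getElem? h

theorem exists_mate {w : List Pass} (hw : IsCode w) {p : Pass} {i : ℕ} (h : w[i]? = some p) :
    ∃ j : ℕ, w[j]? = some p.mate :=
  exists_get (hw.2 p (mem_of_get h)).1

theorem get_idxOf {w : List Pass} {p : Pass} (hp : p ∈ w) : w[w.idxOf p]? = some p := by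
  rw [List.getElem?_eq_getElem (List.idxOf_lt_length_of_mem hp)]
  simp

theorem get_inj {w : List Pass} (hw : IsCode w) {p : Pass} {i j : ℕ} (hi : w[i]? = some p)
    (hj : w[j]? = some p) : i = j := by
  have h1 := lt_of_get hi
  have h2 := lt_of_get hj
  rw [List.getElem?_eq_getElem h1] at hi
  rw [List.getElem?_eq_getElem h2] at hj
  exact (List.Nodup.getElem_inj_iff hw.1).1 ((Option.some.inj hi).trans (Option.some.inj hj).symm)

/-! ### Twisted functions on the sides -/

section Tw

variable {K : Type*} [Field K]

/-- The relations at the corners, twisted by powers of `T`. -/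
def TwCorner (w : List Pass) (T : K) (f : ℕ → Bool → K) : Prop :=
  ∀ (i j : ℕ) (p : Pass), w[i]? = some p → w[j]? = some p.mate → p.FromRight →
    f i true = T ^ (ht w (j + 1) - ht w i) * f (j + 1) true ∧
    f (i + 1) true = T ^ (ht w (j + 1) - ht w i) * f (j + 1) false ∧
    f (i + 1) false = T ^ (ht w (j + 1) - ht w i) * f j false ∧
    f i false = T ^ (ht w (j + 1) - ht w i) * f j true

/-- the jump across an edge -/
def jump (f : ℕ → Bool → K) (k : ℕ) : K := f k true - f k false

theorem TwCorner.kirch {w : List Pass} {T : K} {f : ℕ → Bool → K} (hf : TwCorner w T f)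
    {i j : ℕ} {p : Pass} (hi : w[i]? = some p) (hj : w[j]? = some p.mate) (hp : p.FromRight) :
    jump f i - jump f (i + 1) =
      T ^ (ht w (j + 1) - ht w i) * (jump f (j + 1) - jump f j) := by
  obtain ⟨h1, h2, h3, h4⟩ := hf i j p hi hj hp
  unfold jump
  rw [h1, h2, h3, h4]
  ring

theorem TwCorner.stepR {w : List Pass} {T : K} {f : ℕ → Bool → K} (hf : TwCorner w T f)
    {i j : ℕ} {p : Pass} (hi : w[i]? = some p) (hj : w[j]? = some p.mate) (hp : p.FromRight) :
    f (i + 1) true = f i true - T ^ (ht w (j + 1) - ht w i) * jump f (j + 1) := by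
  obtain ⟨h1, h2, h3, h4⟩ := hf i j p hi hj hp
  unfold jump
  rw [h1, h2]
  ring

theorem TwCorner.stepL {w : List Pass} {T : K} (hT : T ≠ 0) {f : ℕ → Bool → K}
    (hf : TwCorner w T f)
    {i j : ℕ} {p : Pass} (hi : w[i]? = some p) (hj : w[j]? = some p.mate) (hp : p.FromRight) :
    f (j + 1) true = f j true + T ^ (-(ht w (j + 1) - ht w i)) * jump f i := by
  obtain ⟨h1, h2, h3, h4⟩ := hf i j p hi hj hp
  unfold jump
  rw [h1, h4, ← mul_sub, ← mul_assoc, ← zpow_add₀ hT]
  simp

/-- The function on the sides which is given by a function on the regions. -/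
def valL (w : List Pass) (r : (Fin (w.length + 1) × Bool) → (Fin (w.length + 1) × Bool) → Prop)
    (k : ℕ) (b : Bool) : (Quot r → K) →ₗ[K] K :=
  if h : k < w.length + 1 then LinearMap.proj (Quot.mk r (⟨k, h⟩, b)) else 0

theorem valL_of_lt {w : List Pass}
    {r : (Fin (w.length + 1) × Bool) → (Fin (w.length + 1) × Bool) → Prop}
    {k : ℕ} (h : k < w.length + 1) (b : Bool) (U : Quot r → K) :
    valL w r k b U = U (Quot.mk r (⟨k, h⟩, b)) := by
  simp [valL, h]

theorem valL_const {w : List Pass}
    {r : (Fin (w.length + 1) × Bool) → (Fin (w.length + 1) × Bool) → Prop}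
    {k : ℕ} (h : k < w.length + 1) (b : Bool) (c : K) :
    valL w r k b (fun _ => c) = c := by
  rw [valL_of_lt h]

theorem corner_lt {w : List Pass} {x y : ℕ × Bool} (h : Corner w x y) :
    x.1 < w.length + 1 ∧ y.1 < w.length + 1 := by
  cases h with
  | northwest i j p hi hj hp => have := lt_of_get hi; have := lt_of_get hj; constructor <;> simp <;> omega
  | northeast i j p hi hj hp => have := lt_of_get hi; have := lt_of_get hj; constructor <;> simp <;> omega
  | southeast i j p hi hj hp => have := lt_of_get hi; have := lt_of_get hj; constructor <;> simp <;> omega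
  | southwest i j p hi hj hp => have := lt_of_get hi; have := lt_of_get hj; constructor <;> simp <;> omega

theorem valL_corner {w : List Pass}
    {r : (Fin (w.length + 1) × Bool) → (Fin (w.length + 1) × Bool) → Prop}
    (hr : ∀ x y : Fin (w.length + 1) × Bool, Corner w (x.1, x.2) (y.1, y.2) → r x y)
    (U : Quot r → K) {k l : ℕ} {b c : Bool} (h : Corner w (k, b) (l, c)) :
    valL w r k b U = valL w r l c U := by
  obtain ⟨h1, h2⟩ := corner_lt h
  simp only at h1 h2
  rw [valL_of_lt h1, valL_of_lt h2]
  congr 1
  exact Quot.sound (hr (⟨k, h1⟩, b) (⟨l, h2⟩, c) h)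

/-- the exponent of the twist of a side -/
def tw (w : List Pass) (k : ℕ) (b : Bool) : ℤ := - ht w k - if b then 0 else 1

/-- the twisted function on the sides -/
def twL (w : List Pass) (r : (Fin (w.length + 1) × Bool) → (Fin (w.length + 1) × Bool) → Prop)
    (T : K) (k : ℕ) (b : Bool) : (Quot r → K) →ₗ[K] K :=
  T ^ tw w k b • valL w r k b

theorem twCorner {w : List Pass} {T : K} (hT : T ≠ 0)
    {r : (Fin (w.length + 1) × Bool) → (Fin (w.length + 1) × Bool) → Prop}
    (hr : ∀ x y : Fin (w.length + 1) × Bool, Corner w (x.1, x.2) (y.1, y.2) → r x y)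
    (U : Quot r → K) : TwCorner w T (fun k b => twL w r T k b U) := by
  intro i j p hi hj hp
  have hsi : ht w (i + 1) = ht w i + 1 := by rw [ht_succ hi]; simp [sgn, hp]
  have hsj : ht w (j + 1) = ht w j - 1 := by
    rw [ht_succ hj, sgn_mate]; simp [sgn, hp]; ring
  have key : ∀ (k l : ℕ) (b c : Bool), Corner w (k, b) (l, c) →
      tw w k b = (ht w (j + 1) - ht w i) + tw w l c →
      twL w r T k b U = T ^ (ht w (j + 1) - ht w i) * twL w r T l c U := by
    intro k l b c h1 h2
    simp only [twL, LinearMap.smul_apply, smul_eq_mul]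
    rw [valL_corner hr U h1, h2, zpow_add₀ hT, mul_assoc]
  refine ⟨key _ _ _ _ (Corner.northwest i j p hi hj hp) ?_,
    key _ _ _ _ (Corner.northeast i j p hi hj hp) ?_,
    key _ _ _ _ (Corner.southeast i j p hi hj hp) ?_,
    key _ _ _ _ (Corner.southwest i j p hi hj hp) ?_⟩ <;>
  · simp only [tw, hsi, hsj]
    simp
    try ring

/-- If a twisted function has no jump at the first edge and at the passages over crossings, it has
no jump at all. -/
theorem jump_eq_zero {w : List Pass} (hw : IsCode w) {T : K} (hT : T ≠ 0) {f : ℕ → Bool → K}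
    (hf : TwCorner w T f) (h0 : jump f 0 = 0)
    (h : ∀ (i : ℕ) (p : Pass), w[i]? = some p → p.isOver = true → jump f (i + 1) - jump f i = 0) :
    ∀ k, k ≤ w.length → jump f k = 0 := by
  have hall : ∀ (i : ℕ) (p : Pass), w[i]? = some p → jump f (i + 1) - jump f i = 0 := by
    intro i p hi
    by_cases ho : p.isOver = true
    · exact h i p hi ho
    · obtain ⟨j, hj⟩ := exists_mate hw hi
      have ho' : p.mate.isOver = true := by simp [Pass.mate]; simpa using ho
      have h2 := h j _ hj ho'
      by_cases hp : p.FromRight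
      · have := hf.kirch hi hj hp
        rw [h2, mul_zero] at this
        linear_combination -this
      · have hp' : p.mate.FromRight := (fromRight_mate p).2 hp
        have h3 : w[i]? = some p.mate.mate := by rw [mate_mate]; exact hi
        have := hf.kirch hj h3 hp'
        have h4 : jump f j - jump f (j + 1) = 0 := by linear_combination -h2
        rw [h4] at this
        rcases mul_eq_zero.1 this.symm with h5 | h5
        · exact absurd h5 (zpow_ne_zero _ hT)
        · exact h5
  intro k
  induction k with
  | zero => intro _; exact h0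
  | succ k ih =>
    intro hk
    have h1 := ih (by omega)
    have h2 : w[k]? = some (w[k]'(by omega)) := List.getElem?_eq_getElem (by omega)
    have h3 := hall k _ h2
    rw [h1, sub_zero] at h3
    exact h3

theorem const_of_jump {w : List Pass} (hw : IsCode w) {T : K} (hT : T ≠ 0) {f : ℕ → Bool → K}
    (hf : TwCorner w T f) (h : ∀ k, k ≤ w.length → jump f k = 0) :
    ∀ k, k ≤ w.length → ∀ b, f k b = f 0 true := by
  have h1 : ∀ k, k ≤ w.length → f k true = f 0 true := by
    intro k
    induction k with
    | zero => intro _; rfl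
    | succ k ih =>
      intro hk
      rw [← ih (by omega)]
      have h2 : w[k]? = some (w[k]'(by omega)) := List.getElem?_eq_getElem (by omega)
      obtain ⟨j, hj⟩ := exists_mate hw h2
      have hjl := lt_of_get hj
      by_cases hp : (w[k]'(by omega)).FromRight
      · rw [hf.stepR h2 hj hp, h _ (by omega)]
        simp
      · have hp' := (fromRight_mate _).2 hp
        have h3 : w[k]? = some (w[k]'(by omega)).mate.mate := by rw [mate_mate]; exact h2
        rw [hf.stepL hT hj h3 hp', h _ (by omega)]
        simp
  intro k hk b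
  cases b with
  | true => exact h1 k hk
  | false =>
    rw [← h1 k hk]
    have := h k hk
    unfold jump at this
    exact (sub_eq_zero.1 this).symm

end Tw

end Pool.Agent.H77.Kd
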