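import Pool.Agent.H77.Kd.Moves

set_option autoImplicit false

/-!
# The crossing number of knot-type knotoids
-/

namespace Pool.Agent.H77.Kd

/-- The lift of a knotoid diagram: a knot diagram. -/
def KnotoidDiagram.lift (E : KnotoidDiagram) : KnotDiagram :=
  ⟨keep E.code, isCode_keep E.isCode, euler_keep E.isCode E.euler⟩

/-- The arc which is obtained from a knot diagram by cutting it at the base point. -/
def KnotDiagram.cut (D : KnotDiagram) : KnotoidDiagram :=
  ⟨D.code, D.isCode, euler_cut D.isCode D.euler⟩

theorem KnotDiagram.ext' {D E : KnotDiagram} (h : D.code = E.code) : D = E := by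
  cases D; cases E; simp only at h; subst h; rfl

theorem KnotDiagram.lift_cut (D : KnotDiagram) : D.cut.lift = D :=
  KnotDiagram.ext' (keep_eq D.isCode D.euler)

theorem lift_move {D E : KnotoidDiagram} (h : KnotoidMove D E) :
    (Quot.mk KnotMove D.lift) = Quot.mk KnotMove E.lift := by
  rcases h with h | h
  · rcases keep_reidemeister D.isCode E.isCode h with h | h
    · rw [KnotDiagram.ext' (D := D.lift) (E := E.lift) h]
    · exact Quot.sound (Or.inl h)
  · exact Quot.sound (Or.inr (Or.inl (keep_renamed h)))

/-- The lift of a knotoid. -/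
def Knotoid.lift (K : Knotoid) : Knot :=
  Quot.lift (fun E : KnotoidDiagram => Quot.mk KnotMove E.lift) (fun _ _ h => lift_move h) K

theorem IsBullet.lift_eq {k : Knot} {K : Knotoid} (h : IsBullet k K) : K.lift = k := by
  obtain ⟨D, E, hD, hE, hc⟩ := h
  rw [← hE, ← hD]
  show Quot.mk KnotMove E.lift = Quot.mk KnotMove D
  congr 1
  apply KnotDiagram.ext'
  show keep E.code = D.code
  rw [hc]
  exact keep_eq D.isCode D.euler

theorem exists_cr (k : Knot) : ∃ D : KnotDiagram, IsKnotDiagramOf D k ∧ crossings D.code = k.cr := by
  have hne : {n | ∃ D : KnotDiagram, IsKnotDiagramOf D k ∧ crossings D.code = n}.Nonempty := by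
    induction k using Quot.ind with
    | mk D => exact ⟨_, D, rfl, rfl⟩
  exact Nat.sInf_mem hne

theorem cr_le {k : Knot} {D : KnotDiagram} (h : IsKnotDiagramOf D k) : k.cr ≤ crossings D.code :=
  Nat.sInf_le ⟨D, h, rfl⟩

theorem exists_cr' (K : Knotoid) :
    ∃ E : KnotoidDiagram, IsKnotoidDiagramOf E K ∧ crossings E.code = K.cr := by
  have hne : {n | ∃ E : KnotoidDiagram, IsKnotoidDiagramOf E K ∧ crossings E.code = n}.Nonempty := by
    induction K using Quot.ind with
    | mk E => exact ⟨_, E, rfl, rfl⟩
  exact Nat.sInf_mem hne

theorem cr_le' {K : Knotoid} {E : KnotoidDiagram} (h : IsKnotoidDiagramOf E K) :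
    K.cr ≤ crossings E.code :=
  Nat.sInf_le ⟨E, h, rfl⟩

/-- Every diagram of the knotoid `k•` has at least as many crossings as the knot `k`. -/
theorem le_crossings {k : Knot} {K : Knotoid} (h : IsBullet k K) {E : KnotoidDiagram}
    (hE : IsKnotoidDiagramOf E K) : k.cr ≤ crossings E.code := by
  have h1 : IsKnotDiagramOf E.lift k := by
    have h2 := h.lift_eq
    rw [← hE] at h2
    exact h2
  exact (cr_le h1).trans (keep_crossings_le _)

/-- If the lift has as many crossings, then all crossings have index zero. -/
theorem keep_eq_of_crossings {w : List Pass} (hw : IsCode w)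
    (h : crossings w ≤ crossings (keep w)) : keep w = w := by
  unfold crossings keep at h
  rw [List.filter_filter] at h
  have hsub : (w.filter fun p => p.isOver && decide (Kept w p)).Sublist
      (w.filter fun p => p.isOver) := by
    apply List.monotone_filter_right
    intro p hp
    simp only [Bool.and_eq_true] at hp
    exact hp.1
  have heq := hsub.eq_of_length_le h
  have hall : ∀ p ∈ w, p.isOver = true → Kept w p := by
    intro p hp ho
    have h1 : p ∈ w.filter fun p => p.isOver := by
      rw [List.mem_filter]; exact ⟨hp, ho⟩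
    rw [← heq, List.mem_filter] at h1
    simp only [Bool.and_eq_true, decide_eq_true_eq] at h1
    exact h1.2.2
  unfold keep
  rw [List.filter_eq_self]
  intro p hp
  rw [decide_eq_true_eq]
  by_cases ho : p.isOver = true
  · exact hall p hp ho
  · rw [← kept_mate]
    exact hall _ (hw.2 p hp).1 (by simp [Pass.mate]; simpa using ho)

/-- A diagram of `k•` with as few crossings as `k` has height zero. -/
theorem heightZero {k : Knot} {K : Knotoid} (h : IsBullet k K) {E : KnotoidDiagram}
    (hE : IsKnotoidDiagramOf E K) (hc : crossings E.code ≤ k.cr) : HeightZero E := by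
  have h1 : IsKnotDiagramOf E.lift k := by
    have h2 := h.lift_eq
    rw [← hE] at h2
    exact h2
  have h2 : keep E.code = E.code := keep_eq_of_crossings E.isCode (hc.trans (cr_le h1))
  have h3 := euler_keep E.isCode E.euler
  rw [h2] at h3
  exact height_cut E.isCode h3

end Pool.Agent.H77.Kd
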