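import Pool.Agent.H77.Kd.Closed

set_option autoImplicit false

/-!
# Reidemeister moves and the crossings of index zero
-/

namespace Pool.Agent.H77.Kd

/-- the sum of the signs of a list -/
def tot (A : List Pass) : ℤ := (A.map sgn).sum

theorem tot_append (A B : List Pass) : tot (A ++ B) = tot A + tot B := by simp [tot]

theorem tot_cons (p : Pass) (A : List Pass) : tot (p :: A) = sgn p + tot A := by simp [tot]

theorem tot_nil : tot [] = 0 := rfl

theorem tot_reverse (A : List Pass) : tot A.reverse = tot A := by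
  simp [tot, List.sum_reverse]

/-- `1` if the other strand comes from the right -/
def kap (p : Pass) : ℤ := if p.FromRight then 1 else 0

theorem lev_append {A B : List Pass} {p : Pass} (h : p ∉ A) :
    lev (A ++ p :: B) p = tot A + kap p := by
  unfold lev kap ht tot
  have h1 : (A ++ p :: B).idxOf p = A.length := by
    rw [List.idxOf_append_of_notMem h]
    simp
  rw [h1]
  congr 3
  simp

/-- If a part of the code is replaced by another one with the same sum of signs, the levels of the
other passages do not change. -/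
theorem lev_congr {A X Y B : List Pass} (hXY : tot X = tot Y) {q : Pass} (hX : q ∉ X) (hY : q ∉ Y)
    (hq : q ∈ A ++ B) : lev (A ++ X ++ B) q = lev (A ++ Y ++ B) q := by
  by_cases hA : q ∈ A
  · obtain ⟨A₁, A₂, rfl, hq1⟩ := List.eq_append_cons_of_mem hA
    have e : ∀ Z : List Pass, A₁ ++ q :: A₂ ++ Z ++ B = A₁ ++ q :: (A₂ ++ Z ++ B) := by
      intro Z; simp
    rw [e, e, lev_append hq1, lev_append hq1]
  · have hB : q ∈ B := by
      rw [List.mem_append] at hq
      exact hq.resolve_left hA
    obtain ⟨B₁, B₂, rfl, hq1⟩ := List.eq_append_cons_of_mem hB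
    have e : ∀ Z : List Pass, A ++ Z ++ (B₁ ++ q :: B₂) = (A ++ Z ++ B₁) ++ q :: B₂ := by
      intro Z; simp
    rw [e, e, lev_append (by simp [hA, hX, hq1]), lev_append (by simp [hA, hY, hq1])]
    simp only [tot_append, hXY]

theorem sgn_eq (p : Pass) : sgn p = 2 * kap p - 1 := by
  unfold sgn kap
  by_cases h : p.FromRight
  · rw [if_pos h, if_pos h]; rfl
  · rw [if_neg h, if_neg h]; rfl

theorem kap_mate (p : Pass) : kap p.mate = 1 - kap p := by
  have h1 := sgn_mate p
  rw [sgn_eq, sgn_eq] at h1
  omega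

theorem sgn_opp {p q : Pass} (ho : p.isOver = q.isOver) (hs : p.isPos ≠ q.isPos) :
    (p.FromRight ↔ ¬ q.FromRight) := by
  rcases p with ⟨c, o, s⟩
  rcases q with ⟨c', o', s'⟩
  simp only at ho hs
  subst ho
  unfold Pass.FromRight
  cases o <;> cases s <;> cases s' <;> simp_all

/-- In a code, passages which are not passages through the crossing of `p`. -/
theorem mate_notMem {A X B : List Pass} (hw : IsCode (A ++ X ++ B))
    (hX : ∀ p ∈ X, p.mate ∈ X) {q : Pass} (hq : q ∈ A ++ B) : q ∉ X ∧ q.mate ∉ X := by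
  have hnd := hw.1
  have h1 : q ∉ X := by
    intro h
    rw [List.nodup_append, List.nodup_append] at hnd
    obtain ⟨⟨_, _, h3⟩, _, h4⟩ := hnd
    rw [List.mem_append] at hq
    rcases hq with hq | hq
    · exact h3 q hq q h rfl
    · exact h4 q (by simp [h]) q hq rfl
  refine ⟨h1, fun h => h1 ?_⟩
  have := hX _ h
  rwa [mate_mate] at this

theorem kept_congr {w v : List Pass} {q : Pass} (h : lev v q = lev w q)
    (h' : lev v q.mate = lev w q.mate) : Kept v q ↔ Kept w q := by
  unfold Kept
  rw [h, h']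

theorem filter_kept_congr {w v A : List Pass} (h : ∀ q ∈ A, Kept v q ↔ Kept w q) :
    (A.filter fun q => Kept v q) = A.filter fun q => Kept w q := by
  apply List.filter_congr
  intro q hq
  simp only [h q hq]

/-- type I -/
theorem keep_one {A B : List Pass} {p : Pass} (hw : IsCode (A ++ B))
    (hv : IsCode (A ++ [p, p.mate] ++ B)) :
    Reidemeister (keep (A ++ B)) (keep (A ++ [p, p.mate] ++ B)) := by
  have hmate : ∀ q ∈ A ++ B, q.mate ∈ A ++ B := fun q hq => (hw.2 q hq).1
  have hlev : ∀ q ∈ A ++ B, lev (A ++ [p, p.mate] ++ B) q = lev (A ++ B) q := by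
    intro q hq
    have h1 := mate_notMem hv (by
      intro r hr
      simp only [List.mem_cons, List.not_mem_nil, or_false] at hr ⊢
      rcases hr with rfl | rfl
      · right; rfl
      · left; exact mate_mate _) hq
    have h2 := lev_congr (A := A) (X := [p, p.mate]) (Y := []) (B := B) (q := q)
      (by simp [tot_cons, tot_nil, sgn_mate]) h1.1 (by simp) hq
    simpa using h2
  have hk : ∀ q ∈ A ++ B, Kept (A ++ [p, p.mate] ++ B) q ↔ Kept (A ++ B) q :=
    fun q hq => kept_congr (hlev q hq) (hlev _ (hmate q hq))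
  have hp : Kept (A ++ [p, p.mate] ++ B) p := by
    have hnd := hv.1
    have hpA : p ∉ A := by
      intro h
      rw [List.nodup_append, List.nodup_append] at hnd
      exact hnd.1.2.2 p h p (by simp) rfl
    have hpA' : p.mate ∉ A ++ [p] := by
      intro h
      rw [List.mem_append] at h
      rcases h with h | h
      · rw [List.nodup_append, List.nodup_append] at hnd
        exact hnd.1.2.2 p.mate h p.mate (by simp) rfl
      · simp only [List.mem_cons, List.not_mem_nil, or_false] at h
        exact mate_ne p h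
    unfold Kept
    have e1 : A ++ [p, p.mate] ++ B = A ++ p :: ([p.mate] ++ B) := by simp
    have e2 : A ++ [p, p.mate] ++ B = (A ++ [p]) ++ p.mate :: B := by simp
    have l1 : lev (A ++ [p, p.mate] ++ B) p = tot A + kap p := by
      rw [e1]; exact lev_append hpA
    have l2 : lev (A ++ [p, p.mate] ++ B) p.mate = tot (A ++ [p]) + kap p.mate := by
      rw [e2]; exact lev_append hpA'
    rw [l1, l2, tot_append, tot_cons, tot_nil]
    unfold kap sgn
    by_cases h : p.FromRight
    · have h' : ¬ p.mate.FromRight := by rw [fromRight_mate]; simpa using h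
      rw [if_pos h, if_neg h', if_pos h]; ring
    · have h' : p.mate.FromRight := (fromRight_mate p).2 h
      rw [if_neg h, if_pos h', if_neg h]; ring
  have e : keep (A ++ [p, p.mate] ++ B) = (A.filter fun q => Kept (A ++ B) q) ++ [p, p.mate] ++
      (B.filter fun q => Kept (A ++ B) q) := by
    unfold keep
    rw [List.filter_append, List.filter_append,
      filter_kept_congr (A := A) (fun q hq => hk q (List.mem_append_left _ hq)),
      filter_kept_congr (A := B) (fun q hq => hk q (List.mem_append_right _ hq))]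
    congr 2
    rw [List.filter_eq_self]
    intro q hq
    simp only [List.mem_cons, List.not_mem_nil, or_false] at hq
    rcases hq with rfl | rfl
    · simpa using hp
    · simpa using kept_mate.2 hp
  rw [e]
  have e' : keep (A ++ B) = (A.filter fun q => Kept (A ++ B) q) ++
      (B.filter fun q => Kept (A ++ B) q) := by
    unfold keep
    rw [List.filter_append]
  rw [e']
  exact Reidemeister.one _ _ _

theorem notMem_of_nodup {P Q : List Pass} {x : Pass} (h : (P ++ x :: Q).Nodup) : x ∉ P := by
  intro hx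
  rw [List.nodup_append] at h
  exact h.2.2 x hx x (by simp) rfl

theorem lev_of_eq {v P Q : List Pass} {x : Pass} (hnd : v.Nodup) (h : v = P ++ x :: Q) :
    lev v x = tot P + kap x := by
  rw [h]
  rw [h] at hnd
  exact lev_append (notMem_of_nodup hnd)

/-- type II, in both forms -/
theorem keep_two {A B C X : List Pass} {p q : Pass} (hw : IsCode (A ++ B ++ C))
    (hv : IsCode (A ++ [p, q] ++ B ++ X ++ C)) (ho : p.isOver = q.isOver)
    (hs : p.isPos ≠ q.isPos) (hX : X = [p.mate, q.mate] ∨ X = [q.mate, p.mate]) :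
    keep (A ++ B ++ C) = keep (A ++ [p, q] ++ B ++ X ++ C) ∨
    Reidemeister (keep (A ++ B ++ C)) (keep (A ++ [p, q] ++ B ++ X ++ C)) := by
  have hopp := sgn_opp ho hs
  have hkap : kap q = 1 - kap p := by
    unfold kap
    by_cases h : q.FromRight
    · rw [if_pos h, if_neg (fun h' => (hopp.1 h') h)]; rfl
    · rw [if_neg h, if_pos (hopp.2 h)]; rfl
  have hX0 : tot X = 0 := by
    rcases hX with rfl | rfl
    · simp only [tot_cons, tot_nil, sgn_eq, kap_mate]; omega
    · simp only [tot_cons, tot_nil, sgn_eq, kap_mate]; omega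
  have hmemX : ∀ r, r ∈ X ↔ r = p.mate ∨ r = q.mate := by
    intro r
    rcases hX with rfl | rfl
    · simp
    · simp [or_comm]
  have hnd := hv.1
  have hdis : ∀ r ∈ A ++ B ++ C, r ≠ p ∧ r ≠ q ∧ r ≠ p.mate ∧ r ≠ q.mate := by
    intro r hr
    have hperm : (A ++ [p, q] ++ B ++ X ++ C).Perm (([p, q] ++ X) ++ (A ++ B ++ C)) := by
      rw [← Multiset.coe_eq_coe]
      simp only [← Multiset.coe_add]
      abel
    have hnd' := hperm.nodup_iff.1 hnd
    rw [List.nodup_append] at hnd'
    have h3 := hnd'.2.2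
    refine ⟨?_, ?_, ?_, ?_⟩
    · exact fun h => h3 p (by simp) r hr h.symm
    · exact fun h => h3 q (by simp) r hr h.symm
    · exact fun h => h3 p.mate (by
        rw [List.mem_append]; right; exact (hmemX _).2 (Or.inl rfl)) r hr h.symm
    · exact fun h => h3 q.mate (by
        rw [List.mem_append]; right; exact (hmemX _).2 (Or.inr rfl)) r hr h.symm
  have hmate : ∀ r ∈ A ++ B ++ C, r.mate ∈ A ++ B ++ C := fun r hr => (hw.2 r hr).1
  have hlev : ∀ r ∈ A ++ B ++ C,
      lev (A ++ [p, q] ++ B ++ X ++ C) r = lev (A ++ B ++ C) r := by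
    intro r hr
    obtain ⟨d1, d2, d3, d4⟩ := hdis r hr
    have h1 := lev_congr (A := A ++ [p, q] ++ B) (X := X) (Y := []) (B := C) (q := r)
      (by rw [hX0, tot_nil]) (by rw [hmemX]; tauto) (by simp) (by
        simp only [List.mem_append] at hr ⊢; tauto)
    have h2 := lev_congr (A := A) (X := [p, q]) (Y := []) (B := B ++ C) (q := r)
      (by simp only [tot_cons, tot_nil, sgn_eq]; omega) (by simp; tauto) (by simp) (by
        simp only [List.mem_append] at hr ⊢; tauto)
    simp only [List.append_nil, List.append_assoc] at h1 h2 ⊢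
    rw [h1, h2]
  have hk : ∀ r ∈ A ++ B ++ C, Kept (A ++ [p, q] ++ B ++ X ++ C) r ↔ Kept (A ++ B ++ C) r :=
    fun r hr => kept_congr (hlev r hr) (hlev _ (hmate r hr))
  -- the levels of the new passages
  set v := A ++ [p, q] ++ B ++ X ++ C with hvdef
  have hkpq : Kept v p ↔ Kept v q := by
    have l1 : lev v p = tot A + kap p :=
      lev_of_eq (Q := [q] ++ B ++ X ++ C) hnd (by simp [hvdef])
    have l2 : lev v q = tot (A ++ [p]) + kap q :=
      lev_of_eq (Q := B ++ X ++ C) hnd (by simp [hvdef])
    have e12 : lev v p = lev v q := by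
      rw [l1, l2]
      simp only [tot_append, tot_cons, tot_nil, sgn_eq]
      omega
    have e34 : lev v p.mate = lev v q.mate := by
      rcases hX with hX | hX
      · have l3 : lev v p.mate = tot (A ++ [p, q] ++ B) + kap p.mate :=
          lev_of_eq (Q := [q.mate] ++ C) hnd (by simp [hvdef, hX])
        have l4 : lev v q.mate = tot (A ++ [p, q] ++ B ++ [p.mate]) + kap q.mate :=
          lev_of_eq (Q := C) hnd (by simp [hvdef, hX])
        rw [l3, l4]
        simp only [tot_append, tot_cons, tot_nil, sgn_eq, kap_mate]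
        omega
      · have l3 : lev v q.mate = tot (A ++ [p, q] ++ B) + kap q.mate :=
          lev_of_eq (Q := [p.mate] ++ C) hnd (by simp [hvdef, hX])
        have l4 : lev v p.mate = tot (A ++ [p, q] ++ B ++ [q.mate]) + kap p.mate :=
          lev_of_eq (Q := C) hnd (by simp [hvdef, hX])
        rw [l3, l4]
        simp only [tot_append, tot_cons, tot_nil, sgn_eq, kap_mate]
        omega
    unfold Kept
    rw [e12, e34]
  have e' : keep (A ++ B ++ C) = (A.filter fun q => Kept (A ++ B ++ C) q) ++
      (B.filter fun q => Kept (A ++ B ++ C) q) ++ (C.filter fun q => Kept (A ++ B ++ C) q) := by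
    unfold keep
    rw [List.filter_append, List.filter_append]
  have e : keep v = (A.filter fun q => Kept (A ++ B ++ C) q) ++
      ([p, q].filter fun q => Kept v q) ++ (B.filter fun q => Kept (A ++ B ++ C) q) ++
      (X.filter fun q => Kept v q) ++ (C.filter fun q => Kept (A ++ B ++ C) q) := by
    unfold keep
    conv_lhs => rw [hvdef]
    rw [List.filter_append, List.filter_append, List.filter_append, List.filter_append,
      filter_kept_congr (A := A) (fun q hq => hk q (by simp [hq])),
      filter_kept_congr (A := B) (fun q hq => hk q (by simp [hq])),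
      filter_kept_congr (A := C) (fun q hq => hk q (by simp [hq]))]
  rw [e, e']
  by_cases hkp : Kept v p
  · right
    have hkq := hkpq.1 hkp
    have f1 : ([p, q].filter fun q => Kept v q) = [p, q] := by
      simp [hkp, hkq]
    have f2 : (X.filter fun q => Kept v q) = X := by
      rw [List.filter_eq_self]
      intro r hr
      rcases (hmemX r).1 hr with rfl | rfl
      · simpa using kept_mate.2 hkp
      · simpa using kept_mate.2 hkq
    rw [f1, f2]
    rcases hX with rfl | rfl
    · exact Reidemeister.twoParallel _ _ _ _ _ ho hs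
    · exact Reidemeister.twoOpposite _ _ _ _ _ ho hs
  · left
    have hkq : ¬ Kept v q := fun h => hkp (hkpq.2 h)
    have f1 : ([p, q].filter fun q => Kept v q) = [] := by
      simp [hkp, hkq]
    have f2 : (X.filter fun q => Kept v q) = [] := by
      rw [List.filter_eq_nil_iff]
      intro r hr
      rcases (hmemX r).1 hr with rfl | rfl
      · simpa using fun h => hkp (kept_mate.1 h)
      · simpa using fun h => hkq (kept_mate.1 h)
    rw [f1, f2]
    simp

/-- the levels of the two passages of a strand of a triangle -/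
theorem block_lev {w v P Q P' Q' : List Pass} {u₁ u₂ : Pass} (hw : w.Nodup) (hv : v.Nodup)
    (h : w = P ++ [u₁, u₂] ++ Q) (h' : v = P' ++ [u₁, u₂].reverse ++ Q') (hP : tot P = tot P') :
    ∃ c : ℤ, lev w u₁ = c + kap u₁ ∧ lev w u₂ = c + sgn u₁ + kap u₂ ∧
      lev v u₂ = c + kap u₂ ∧ lev v u₁ = c + sgn u₂ + kap u₁ := by
  refine ⟨tot P, ?_, ?_, ?_, ?_⟩
  · exact lev_of_eq (Q := [u₂] ++ Q) hw (by simp [h])
  · rw [lev_of_eq (P := P ++ [u₁]) (Q := Q) hw (by simp [h])]
    simp only [tot_append, tot_cons, tot_nil]; ring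
  · rw [hP]
    exact lev_of_eq (Q := [u₁] ++ Q') hv (by simp [h'])
  · rw [hP, lev_of_eq (P := P' ++ [u₂]) (Q := Q') hv (by simp [h'])]
    simp only [tot_append, tot_cons, tot_nil]; ring

theorem kap_of_over {p : Pass} (h : p.isOver = true) : kap p = if p.isPos then 1 else 0 := by
  rcases p with ⟨c, o, s⟩
  simp only at h
  subst h
  cases s <;> simp [kap, Pass.FromRight]

theorem block_lev' {w v P Q P' Q' : List Pass} {u₁ u₂ : Pass} (o : Bool) (hw : w.Nodup)
    (hv : v.Nodup) (h : w = P ++ (if o then [u₁, u₂] else [u₂, u₁]) ++ Q)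
    (h' : v = P' ++ (if o then [u₁, u₂] else [u₂, u₁]).reverse ++ Q') (hP : tot P = tot P') :
    ∃ c : ℤ, lev w u₁ = c + kap u₁ + (if o then 0 else sgn u₂) ∧
      lev w u₂ = c + kap u₂ + (if o then sgn u₁ else 0) ∧
      lev v u₁ = c + kap u₁ + (if o then sgn u₂ else 0) ∧
      lev v u₂ = c + kap u₂ + (if o then 0 else sgn u₁) := by
  cases o with
  | true =>
    obtain ⟨c, h1, h2, h3, h4⟩ := block_lev hw hv h h' hP
    refine ⟨c, ?_, ?_, ?_, ?_⟩
    · rw [h1]; simp
    · rw [h2]; simp; ring
    · rw [h4]; simp; ring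
    · rw [h3]; simp
  | false =>
    obtain ⟨c, h1, h2, h3, h4⟩ := block_lev hw hv h h' hP
    refine ⟨c, ?_, ?_, ?_, ?_⟩
    · rw [h2]; simp; ring
    · rw [h1]; simp
    · rw [h3]; simp
    · rw [h4]; simp; ring

theorem filter_block {P : Pass → Prop} [DecidablePred P] {u₁ u₂ : Pass} (o : Bool)
    (h : ¬ (P u₁ ∧ P u₂)) :
    ((if o then [u₁, u₂] else [u₂, u₁]).filter fun p => P p).reverse =
      (if o then [u₁, u₂] else [u₂, u₁]).filter fun p => P p := by
  by_cases h1 : P u₁
  · have h2 : ¬ P u₂ := fun h2 => h ⟨h1, h2⟩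
    cases o <;> simp [h1, h2]
  · by_cases h2 : P u₂
    · cases o <;> simp [h1, h2]
    · cases o <;> simp [h1, h2]

theorem mem_rest {A B C D X Y Z : List Pass} {q : Pass}
    (hq : q ∈ A ++ X ++ B ++ Y ++ C ++ Z ++ D) (h : ¬ (q ∈ X ∨ q ∈ Y ∨ q ∈ Z)) :
    q ∈ A ++ B ++ C ++ D := by
  simp only [List.mem_append] at hq ⊢
  tauto

theorem mem_rest1 {A B C D Y Z : List Pass} {q : Pass} (hq : q ∈ A ++ B ++ C ++ D) :
    q ∈ A ++ (B ++ Y ++ C ++ Z ++ D) := by
  simp only [List.mem_append] at hq ⊢
  tauto

theorem mem_rest2 {A B C D X Z : List Pass} {q : Pass} (hq : q ∈ A ++ B ++ C ++ D) :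
    q ∈ A ++ X ++ B ++ (C ++ Z ++ D) := by
  simp only [List.mem_append] at hq ⊢
  tauto

theorem mem_rest3 {A B C D X Y : List Pass} {q : Pass} (hq : q ∈ A ++ B ++ C ++ D) :
    q ∈ A ++ X ++ B ++ Y ++ C ++ D := by
  simp only [List.mem_append] at hq ⊢
  tauto

theorem six_mate {q x y z : Pass} (h : q.mate = x ∨ q.mate = x.mate ∨ q.mate = y ∨
    q.mate = y.mate ∨ q.mate = z ∨ q.mate = z.mate) :
    q = x ∨ q = x.mate ∨ q = y ∨ q = y.mate ∨ q = z ∨ q = z.mate := by
  have e : q = q.mate.mate := (mate_mate q).symm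
  rcases h with h | h | h | h | h | h <;> rw [h] at e
  · exact Or.inr (Or.inl e)
  · rw [mate_mate] at e; exact Or.inl e
  · exact Or.inr (Or.inr (Or.inr (Or.inl e)))
  · rw [mate_mate] at e; exact Or.inr (Or.inr (Or.inl e))
  · exact Or.inr (Or.inr (Or.inr (Or.inr (Or.inr e))))
  · rw [mate_mate] at e; exact Or.inr (Or.inr (Or.inr (Or.inr (Or.inl e))))

set_option maxHeartbeats 4000000 in
/-- type III -/
theorem keep_three {A B C D X Y Z t m b : List Pass} (hT : Triangle t m b)
    (hp : [X, Y, Z].Perm [t, m, b])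
    (hw : IsCode (A ++ X ++ B ++ Y ++ C ++ Z ++ D))
    (hv : IsCode (A ++ X.reverse ++ B ++ Y.reverse ++ C ++ Z.reverse ++ D)) :
    keep (A ++ X ++ B ++ Y ++ C ++ Z ++ D) =
      keep (A ++ X.reverse ++ B ++ Y.reverse ++ C ++ Z.reverse ++ D) ∨
    Reidemeister (keep (A ++ X ++ B ++ Y ++ C ++ Z ++ D))
      (keep (A ++ X.reverse ++ B ++ Y.reverse ++ C ++ Z.reverse ++ D)) := by
  set w := A ++ X ++ B ++ Y ++ C ++ Z ++ D with hwdef
  set v := A ++ X.reverse ++ B ++ Y.reverse ++ C ++ Z.reverse ++ D with hvdef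
  -- the positions of the three strands
  have hblock : ∀ U ∈ [X, Y, Z], ∃ P Q P' Q' : List Pass, w = P ++ U ++ Q ∧
      v = P' ++ U.reverse ++ Q' ∧ tot P = tot P' := by
    intro U hU
    simp only [List.mem_cons, List.not_mem_nil, or_false] at hU
    rcases hU with rfl | rfl | rfl
    · exact ⟨A, B ++ Y ++ C ++ Z ++ D, A, B ++ Y.reverse ++ C ++ Z.reverse ++ D,
        by simp [hwdef], by simp [hvdef], rfl⟩
    · exact ⟨A ++ X ++ B, C ++ Z ++ D, A ++ X.reverse ++ B, C ++ Z.reverse ++ D,
        by simp [hwdef], by simp [hvdef], by simp only [tot_append, tot_reverse]⟩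
    · exact ⟨A ++ X ++ B ++ Y ++ C, D, A ++ X.reverse ++ B ++ Y.reverse ++ C, D,
        by simp [hwdef], by simp [hvdef], by simp only [tot_append, tot_reverse]⟩
  have hmem : ∀ U, U ∈ [X, Y, Z] ↔ U = t ∨ U = m ∨ U = b := by
    intro U
    rw [hp.mem_iff]
    simp
  obtain ⟨Pt, Qt, Pt', Qt', wt, vt, et⟩ := hblock t ((hmem t).2 (Or.inl rfl))
  obtain ⟨Pm, Qm, Pm', Qm', wm, vm, em⟩ := hblock m ((hmem m).2 (Or.inr (Or.inl rfl)))
  obtain ⟨Pb, Qb, Pb', Qb', wb, vb, eb⟩ := hblock b ((hmem b).2 (Or.inr (Or.inr rfl)))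
  -- the other passages
  have hnd : (A ++ B ++ C ++ D ++ (X ++ Y ++ Z)).Nodup := by
    have hperm : w.Perm (A ++ B ++ C ++ D ++ (X ++ Y ++ Z)) := by
      rw [← Multiset.coe_eq_coe, hwdef]
      simp only [← Multiset.coe_add]
      abel
    exact hperm.nodup_iff.1 hw.1
  have hdis : ∀ q ∈ A ++ B ++ C ++ D, q ∉ X ∧ q ∉ Y ∧ q ∉ Z := by
    intro q hq
    rw [List.nodup_append] at hnd
    have h3 := hnd.2.2 q hq
    refine ⟨fun h => h3 q (by simp [h]) rfl, fun h => h3 q (by simp [h]) rfl,
      fun h => h3 q (by simp [h]) rfl⟩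
  have hlev : ∀ q ∈ A ++ B ++ C ++ D, lev v q = lev w q := by
    intro q hq
    obtain ⟨d1, d2, d3⟩ := hdis q hq
    have h1 := lev_congr (A := A) (X := X.reverse) (Y := X)
      (B := B ++ Y.reverse ++ C ++ Z.reverse ++ D) (q := q) (tot_reverse X) (by simpa using d1) d1
      (mem_rest1 hq)
    have h2 := lev_congr (A := A ++ X ++ B) (X := Y.reverse) (Y := Y)
      (B := C ++ Z.reverse ++ D) (q := q) (tot_reverse Y) (by simpa using d2) d2
      (mem_rest2 hq)
    have h3 := lev_congr (A := A ++ X ++ B ++ Y ++ C) (X := Z.reverse) (Y := Z)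
      (B := D) (q := q) (tot_reverse Z) (by simpa using d3) d3
      (mem_rest3 hq)
    rw [hwdef, hvdef]
    simp only [List.append_assoc] at h1 h2 h3 ⊢
    rw [h1, h2, h3]
  obtain ⟨x, y, z, hx, hy, hz, ot, om, ob, h₁, h₂⟩ := hT
  obtain ⟨ct, t1, t2, t3, t4⟩ := block_lev' ot hw.1 hv.1 wt vt et
  obtain ⟨cm, m1, m2, m3, m4⟩ := block_lev' om hw.1 hv.1 wm vm em
  obtain ⟨cb, b1, b2, b3, b4⟩ := block_lev' ob hw.1 hv.1 wb vb eb
  have kx := kap_of_over hx
  have ky := kap_of_over hy
  have kz := kap_of_over hz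
  simp only [sgn_eq, kap_mate] at t1 t2 t3 t4 m1 m2 m3 m4 b1 b2 b3 b4
  have D1 : lev v x - lev v x.mate = lev w x - lev w x.mate := by
    rw [t3, m3, t1, m1, kx, ky, kz]
    clear * - h₁ h₂
    revert h₁ h₂
    generalize x.isPos = px, y.isPos = py, z.isPos = pz
    cases px <;> cases py <;> cases pz <;> cases ot <;> cases om <;> cases ob <;>
      simp <;> ring
  have D2 : lev v y - lev v y.mate = lev w y - lev w y.mate := by
    rw [t4, b3, t2, b1, kx, ky, kz]
    clear * - h₁ h₂
    revert h₁ h₂
    generalize x.isPos = px, y.isPos = py, z.isPos = pz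
    cases px <;> cases py <;> cases pz <;> cases ot <;> cases om <;> cases ob <;>
      simp <;> ring
  have D3 : lev v z - lev v z.mate = lev w z - lev w z.mate := by
    rw [m4, b4, m2, b2, kx, ky, kz]
    clear * - h₁ h₂
    revert h₁ h₂
    generalize x.isPos = px, y.isPos = py, z.isPos = pz
    cases px <;> cases py <;> cases pz <;> cases ot <;> cases om <;> cases ob <;>
      simp <;> ring
  have D4 : (lev w x - lev w x.mate) + (lev w z - lev w z.mate) = lev w y - lev w y.mate := by
    rw [t1, m1, m2, b2, t2, b1, kx, ky, kz]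
    clear * - h₁ h₂
    revert h₁ h₂
    generalize x.isPos = px, y.isPos = py, z.isPos = pz
    cases px <;> cases py <;> cases pz <;> cases ot <;> cases om <;> cases ob <;>
      simp <;> ring
  clear t1 t2 t3 t4 m1 m2 m3 m4 b1 b2 b3 b4 kx ky kz
  have Kx : Kept v x ↔ Kept w x := by
    unfold Kept
    rw [← sub_eq_zero, D1, sub_eq_zero]
  have Ky : Kept v y ↔ Kept w y := by
    unfold Kept
    rw [← sub_eq_zero, D2, sub_eq_zero]
  have Kz : Kept v z ↔ Kept w z := by
    unfold Kept
    rw [← sub_eq_zero, D3, sub_eq_zero]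
  have hall : ∀ q ∈ w, Kept v q ↔ Kept w q := by
    have hq1 : ∀ q, (q = x ∨ q = x.mate ∨ q = y ∨ q = y.mate ∨ q = z ∨ q = z.mate) →
        (Kept v q ↔ Kept w q) := by
      rintro q (rfl | rfl | rfl | rfl | rfl | rfl)
      · exact Kx
      · rw [kept_mate, kept_mate]; exact Kx
      · exact Ky
      · rw [kept_mate, kept_mate]; exact Ky
      · exact Kz
      · rw [kept_mate, kept_mate]; exact Kz
    have hq2 : ∀ q, (q ∈ X ∨ q ∈ Y ∨ q ∈ Z) ↔
        (q = x ∨ q = x.mate ∨ q = y ∨ q = y.mate ∨ q = z ∨ q = z.mate) := by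
      intro q
      have h1 : (q ∈ X ∨ q ∈ Y ∨ q ∈ Z) ↔ ∃ U ∈ [X, Y, Z], q ∈ U := by simp
      rw [h1]
      constructor
      · rintro ⟨U, hU, hq⟩
        rcases (hmem U).1 hU with rfl | rfl | rfl
        · cases ot <;> simp at hq <;> rcases hq with h | h <;> simp [h]
        · cases om <;> simp at hq <;> rcases hq with h | h <;> simp [h]
        · cases ob <;> simp at hq <;> rcases hq with h | h <;> simp [h]
      · rintro (rfl | rfl | rfl | rfl | rfl | rfl)
        · exact ⟨_, (hmem _).2 (Or.inl rfl), by cases ot <;> simp⟩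
        · exact ⟨_, (hmem _).2 (Or.inr (Or.inl rfl)), by cases om <;> simp⟩
        · exact ⟨_, (hmem _).2 (Or.inl rfl), by cases ot <;> simp⟩
        · exact ⟨_, (hmem _).2 (Or.inr (Or.inr rfl)), by cases ob <;> simp⟩
        · exact ⟨_, (hmem _).2 (Or.inr (Or.inl rfl)), by cases om <;> simp⟩
        · exact ⟨_, (hmem _).2 (Or.inr (Or.inr rfl)), by cases ob <;> simp⟩
    intro q hq
    by_cases h1 : q ∈ X ∨ q ∈ Y ∨ q ∈ Z
    · exact hq1 q ((hq2 q).1 h1)
    · have h2 : q ∈ A ++ B ++ C ++ D := mem_rest hq h1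
      have h3 : q.mate ∈ A ++ B ++ C ++ D :=
        mem_rest (hw.2 q hq).1 (fun h6 => h1 ((hq2 q).2 (six_mate ((hq2 _).1 h6))))
      exact kept_congr (hlev q h2) (hlev _ h3)
  have e' : keep w = (A.filter fun q => Kept w q) ++ (X.filter fun q => Kept w q) ++
      (B.filter fun q => Kept w q) ++ (Y.filter fun q => Kept w q) ++
      (C.filter fun q => Kept w q) ++ (Z.filter fun q => Kept w q) ++
      (D.filter fun q => Kept w q) := by
    unfold keep
    conv_lhs => rw [hwdef]
    simp only [List.filter_append]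
    rfl
  have e : keep v = (A.filter fun q => Kept w q) ++ (X.filter fun q => Kept w q).reverse ++
      (B.filter fun q => Kept w q) ++ (Y.filter fun q => Kept w q).reverse ++
      (C.filter fun q => Kept w q) ++ (Z.filter fun q => Kept w q).reverse ++
      (D.filter fun q => Kept w q) := by
    have h1 : keep v = v.filter fun q => Kept w q := by
      unfold keep
      apply filter_kept_congr
      intro q hq
      apply hall
      simp only [hwdef, hvdef, List.mem_append, List.mem_reverse] at hq ⊢
      exact hq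
    rw [h1, hvdef]
    simp only [List.filter_append, List.filter_reverse]
  rw [e, e']
  by_cases hK : Kept w x ∧ Kept w y ∧ Kept w z
  · right
    obtain ⟨k1, k2, k3⟩ := hK
    have hfull : ∀ U ∈ [X, Y, Z], (U.filter fun q => Kept w q) = U := by
      intro U hU
      rw [List.filter_eq_self]
      intro q hq
      rw [decide_eq_true_eq]
      rcases (hmem U).1 hU with rfl | rfl | rfl
      · cases ot <;> simp at hq <;> rcases hq with rfl | rfl <;> assumption
      · cases om <;> simp at hq <;> rcases hq with rfl | rfl <;>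
          first | assumption | (rw [kept_mate]; assumption)
      · cases ob <;> simp at hq <;> rcases hq with rfl | rfl <;> (rw [kept_mate]; assumption)
    rw [hfull X (by simp), hfull Y (by simp), hfull Z (by simp)]
    exact Reidemeister.three _ _ _ _ X Y Z _ _ _
      (Triangle.mk x y z hx hy hz ot om ob h₁ h₂) hp
  · left
    have hxy : ¬ (Kept w x ∧ Kept w y) := by
      rintro ⟨k1, k2⟩
      apply hK
      refine ⟨k1, k2, ?_⟩
      unfold Kept at k1 k2 ⊢
      omega
    have hxz : ¬ (Kept w x ∧ Kept w z) := by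
      rintro ⟨k1, k2⟩
      apply hK
      refine ⟨k1, ?_, k2⟩
      unfold Kept at k1 k2 ⊢
      omega
    have hyz : ¬ (Kept w y ∧ Kept w z) := by
      rintro ⟨k1, k2⟩
      apply hK
      refine ⟨?_, k1, k2⟩
      unfold Kept at k1 k2 ⊢
      omega
    have hrev : ∀ U ∈ [X, Y, Z], (U.filter fun q => Kept w q).reverse =
        U.filter fun q => Kept w q := by
      intro U hU
      rcases (hmem U).1 hU with rfl | rfl | rfl
      · exact filter_block ot hxy
      · exact filter_block om (by rw [kept_mate]; exact hxz)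
      · exact filter_block ob (by rw [kept_mate, kept_mate]; exact hyz)
    rw [hrev X (by simp), hrev Y (by simp), hrev Z (by simp)]

/-- A Reidemeister move of the arc gives a Reidemeister move of its lift, or does not change it. -/
theorem keep_reidemeister {w v : List Pass} (hw : IsCode w) (hv : IsCode v)
    (h : Reidemeister w v) : keep w = keep v ∨ Reidemeister (keep w) (keep v) := by
  cases h with
  | one A B p => exact Or.inr (keep_one hw hv)
  | twoParallel A B C p q ho hs => exact keep_two hw hv ho hs (Or.inl rfl)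
  | twoOpposite A B C p q ho hs => exact keep_two hw hv ho hs (Or.inr rfl)
  | three A B C D X Y Z t m b hT hp => exact keep_three hT hp hw hv

/-- the renaming -/
def ren (f : ℕ → ℕ) (p : Pass) : Pass := ⟨f p.crossing, p.isOver, p.isPos⟩

theorem keep_renamed {w v : List Pass} (h : Renamed w v) : Renamed (keep w) (keep v) := by
  obtain ⟨f, hf, rfl⟩ := h
  refine ⟨f, hf, ?_⟩
  change keep (w.map (ren f)) = (keep w).map (ren f)
  have hinj : Function.Injective (ren f) := by
    intro p q h
    rcases p with ⟨c, o, s⟩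
    rcases q with ⟨c', o', s'⟩
    simp only [ren, Pass.mk.injEq] at h
    obtain ⟨h1, h2, h3⟩ := h
    rw [hf h1, h2, h3]
  have hsgn : ∀ p, sgn (ren f p) = sgn p := fun p => rfl
  have hfr : ∀ p, (ren f p).FromRight ↔ p.FromRight := fun p => Iff.rfl
  have hidx : ∀ p, (w.map (ren f)).idxOf (ren f p) = w.idxOf p := by
    intro p
    clear * - hinj
    induction w with
    | nil => rfl
    | cons a w ih =>
      rw [List.map_cons, List.idxOf_cons, List.idxOf_cons, ih]
      by_cases h : a = p
      · subst h; simp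
      · have h' : ren f a ≠ ren f p := fun e => h (hinj e)
        have e1 : (ren f a == ren f p) = false := beq_eq_false_iff_ne.2 h'
        have e2 : (a == p) = false := beq_eq_false_iff_ne.2 h
        rw [e1, e2]
  have hlev : ∀ p, lev (w.map (ren f)) (ren f p) = lev w p := by
    intro p
    unfold lev ht
    rw [hidx, ← List.map_take, List.map_map]
    rfl
  have hk : ∀ p, Kept (w.map (ren f)) (ren f p) ↔ Kept w p := by
    intro p
    have e : (ren f p).mate = ren f p.mate := rfl
    unfold Kept
    rw [e, hlev, hlev]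
  unfold keep
  rw [List.filter_map]
  congr 1
  apply List.filter_congr
  intro p _
  rw [Function.comp_apply, decide_eq_decide]
  exact hk p

end Pool.Agent.H77.Kd
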