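import Pool.Agent.H77.Kd.Lin

set_option autoImplicit false

/-!
# The number of regions and the existence of functions with given jumps
-/

namespace Pool.Agent.H77.Kd

open Module

variable {K : Type*} [Field K]

/-- the passages over crossings -/
def ov (w : List Pass) : Finset Pass := (w.filter fun p => p.isOver).toFinset

theorem mem_ov {w : List Pass} {p : Pass} : p ∈ ov w ↔ p ∈ w ∧ p.isOver = true := by
  simp [ov]

theorem card_ov {w : List Pass} (hw : IsCode w) : (ov w).card = crossings w := by
  unfold ov crossings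
  exact List.toFinset_card_of_nodup (hw.1.filter _)

theorem finrank_ov {w : List Pass} (hw : IsCode w) : finrank K (ov w → K) = crossings w := by
  rw [Module.finrank_fintype_fun_eq_card, Fintype.card_coe, card_ov hw]

section

variable (w : List Pass) (r : (Fin (w.length + 1) × Bool) → (Fin (w.length + 1) × Bool) → Prop)
  (T : K)

/-- jump across an edge, as a linear map -/
def jumpL (k : ℕ) : (Quot r → K) →ₗ[K] K := twL w r T k true - twL w r T k false

theorem jumpL_apply (k : ℕ) (U : Quot r → K) :
    jumpL w r T k U = jump (fun k b => twL w r T k b U) k := rfl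

/-- change of the jump at a passage, as a linear map -/
def changeL : (Quot r → K) →ₗ[K] (ov w → K) :=
  LinearMap.pi fun p => jumpL w r T (w.idxOf p.1 + 1) - jumpL w r T (w.idxOf p.1)

theorem changeL_apply (U : Quot r → K) (p : ov w) : changeL w r T U p =
    jump (fun k b => twL w r T k b U) (w.idxOf p.1 + 1) -
      jump (fun k b => twL w r T k b U) (w.idxOf p.1) := rfl

end

theorem change_of {w : List Pass} (hw : IsCode w) {f : ℕ → Bool → K} {δ : Pass → K}
    (h : ∀ p : ov w, jump f (w.idxOf p.1 + 1) - jump f (w.idxOf p.1) = δ p.1) :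
    ∀ (i : ℕ) (p : Pass), w[i]? = some p → p.isOver = true →
      jump f (i + 1) - jump f i = δ p := by
  intro i p hi ho
  have hp : p ∈ ov w := mem_ov.2 ⟨mem_of_get hi, ho⟩
  have h1 := h ⟨p, hp⟩
  have h2 : w.idxOf p = i := get_inj hw (get_idxOf (mem_of_get hi)) hi
  rw [h2] at h1
  exact h1

theorem eq_of_tw {w : List Pass}
    {r : (Fin (w.length + 1) × Bool) → (Fin (w.length + 1) × Bool) → Prop} {T : K} (hT : T ≠ 0)
    (U V : Quot r → K)
    (h : ∀ k, k ≤ w.length → ∀ b, twL w r T k b U = twL w r T k b V) : U = V := by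
  funext x
  induction x using Quot.ind with
  | mk x =>
    obtain ⟨⟨k, hk⟩, b⟩ := x
    have h1 := h k (by omega) b
    simp only [twL, LinearMap.smul_apply, smul_eq_mul] at h1
    rw [valL_of_lt hk, valL_of_lt hk] at h1
    exact mul_left_cancel₀ (zpow_ne_zero _ hT) h1

theorem arc_corner {w : List Pass} (x y : Fin (w.length + 1) × Bool)
    (h : Corner w (x.1, x.2) (y.1, y.2)) : ArcAdj w x y := Or.inl h

theorem closed_corner {w : List Pass} (x y : Fin (w.length + 1) × Bool)
    (h : Corner w (x.1, x.2) (y.1, y.2)) : ClosedAdj w x y := Or.inl h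

theorem arc_end {w : List Pass} {T : K} (hT : T ≠ 0) (U : Quot (ArcAdj w) → K) {k : ℕ}
    (hk : k = 0 ∨ k = w.length) :
    twL w (ArcAdj w) T k true U = T * twL w (ArcAdj w) T k false U := by
  have hk' : k < w.length + 1 := by omega
  simp only [twL, LinearMap.smul_apply, smul_eq_mul, tw]
  rw [valL_of_lt hk', valL_of_lt hk']
  have h1 : (Quot.mk (ArcAdj w) (⟨k, hk'⟩, true)) = Quot.mk (ArcAdj w) (⟨k, hk'⟩, false) :=
    Quot.sound (Or.inr ⟨rfl, hk⟩)
  rw [h1, ← mul_assoc]
  congr 1
  rw [mul_comm, ← zpow_add_one₀ hT]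
  simp

theorem closed_end {w : List Pass} (hw : IsCode w) (U : Quot (ClosedAdj w) → K) (T : K) (b : Bool) :
    twL w (ClosedAdj w) T 0 b U = twL w (ClosedAdj w) T w.length b U := by
  simp only [twL, LinearMap.smul_apply, smul_eq_mul, tw, ht_zero, ht_length hw]
  rw [valL_of_lt (by omega), valL_of_lt (by omega)]
  congr 2
  exact Quot.sound (Or.inr ⟨rfl, rfl, rfl⟩)

instance (w : List Pass) : Finite (Quot (ArcAdj w)) := inferInstance

instance (w : List Pass) : Finite (Quot (ClosedAdj w)) := inferInstance

/-- Arcs on the sphere: there are twisted functions with arbitrary jumps. -/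
theorem arc_surj {w : List Pass} (hw : IsCode w) (he : Nat.card (ArcRegion w) = crossings w + 1)
    {T : K} (hT : T ≠ 0) (hT1 : T ≠ 1) (z : K) (δ : Pass → K) :
    ∃ f : ℕ → Bool → K, TwCorner w T f ∧ f 0 true = T * f 0 false ∧
      f w.length true = T * f w.length false ∧ jump f 0 = z ∧
      ∀ (i : ℕ) (p : Pass), w[i]? = some p → p.isOver = true →
        jump f (i + 1) - jump f i = δ p := by
  have hsurj : Function.Surjective
      ((jumpL w (ArcAdj w) T 0).prod (changeL w (ArcAdj w) T)) := by
    apply surj_of_inj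
    · intro U hU
      rw [LinearMap.prod_apply, Function.prod_apply, Prod.mk_eq_zero] at hU
      obtain ⟨h0, h1⟩ := hU
      rw [jumpL_apply] at h0
      have h2 := change_of (K := K) hw (f := fun k b => twL w (ArcAdj w) T k b U)
        (δ := fun _ => 0) (fun p => congrFun h1 p)
      have hf := twCorner hT (fun x y h => arc_corner x y h) U
      have h3 := jump_eq_zero hw hT hf h0 h2
      have h4 := const_of_jump hw hT hf h3
      have h5 : twL w (ArcAdj w) T 0 true U = 0 := by
        have h6 := arc_end hT U (k := 0) (Or.inl rfl)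
        have h7 : twL w (ArcAdj w) T 0 true U = twL w (ArcAdj w) T 0 false U := sub_eq_zero.1 h0
        rw [← h7] at h6
        have h8 : (T - 1) * twL w (ArcAdj w) T 0 true U = 0 := by linear_combination -h6
        rcases mul_eq_zero.1 h8 with h9 | h9
        · exact absurd (sub_eq_zero.1 h9) hT1
        · exact h9
      apply eq_of_tw hT
      intro k hk b
      have h6 := h4 k hk b
      rw [h6, h5, map_zero]
    · rw [Module.finrank_prod, finrank_ov hw, finrank_self, add_comm 1]
      exact he
  obtain ⟨U, hU⟩ := hsurj (z, fun p => δ p.1)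
  rw [LinearMap.prod_apply, Function.prod_apply, Prod.mk.injEq] at hU
  refine ⟨fun k b => twL w (ArcAdj w) T k b U, twCorner hT (fun x y h => arc_corner x y h) U,
    arc_end hT U (Or.inl rfl), arc_end hT U (Or.inr rfl), hU.1, ?_⟩
  exact change_of hw (fun p => congrFun hU.2 p)

/-- Closed curves on the sphere: there are functions with arbitrary jumps. -/
theorem closed_surj {w : List Pass} (hw : IsCode w)
    (he : Nat.card (ClosedRegion w) = crossings w + 2) (z : K) (δ : Pass → K) :
    ∃ f : ℕ → Bool → K, TwCorner w 1 f ∧ (∀ b, f 0 b = f w.length b) ∧ jump f 0 = z ∧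
      ∀ (i : ℕ) (p : Pass), w[i]? = some p → p.isOver = true →
        jump f (i + 1) - jump f i = δ p := by
  have hT : (1 : K) ≠ 0 := one_ne_zero
  have hsurj : Function.Surjective
      ((jumpL w (ClosedAdj w) (1 : K) 0).prod (changeL w (ClosedAdj w) 1)) := by
    apply surj_of_const_ker
    · intro U hU
      rw [LinearMap.prod_apply, Function.prod_apply, Prod.mk_eq_zero] at hU
      obtain ⟨h0, h1⟩ := hU
      rw [jumpL_apply] at h0
      have h2 := change_of (K := K) hw (f := fun k b => twL w (ClosedAdj w) 1 k b U)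
        (δ := fun _ => 0) (fun p => congrFun h1 p)
      have hf := twCorner hT (fun x y h => closed_corner x y h) U
      have h3 := jump_eq_zero hw hT hf h0 h2
      have h4 := const_of_jump hw hT hf h3
      refine ⟨twL w (ClosedAdj w) 1 0 true U, ?_⟩
      apply eq_of_tw hT
      intro k hk b
      have h6 := h4 k hk b
      rw [h6]
      simp only [twL, LinearMap.smul_apply, smul_eq_mul, one_zpow, one_mul]
      rw [valL_const (by omega)]
    · rw [Module.finrank_prod, finrank_ov hw, finrank_self]
      have : Nat.card (Quot (ClosedAdj w)) = crossings w + 2 := he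
      omega
  obtain ⟨U, hU⟩ := hsurj (z, fun p => δ p.1)
  rw [LinearMap.prod_apply, Function.prod_apply, Prod.mk.injEq] at hU
  refine ⟨fun k b => twL w (ClosedAdj w) 1 k b U, twCorner hT (fun x y h => closed_corner x y h) U,
    fun b => closed_end hw U 1 b, hU.1, ?_⟩
  exact change_of hw (fun p => congrFun hU.2 p)

/-- the function on the regions given by a function on the sides -/
theorem descend {w : List Pass}
    {r : (Fin (w.length + 1) × Bool) → (Fin (w.length + 1) × Bool) → Prop}
    (f : ℕ → Bool → K) (hf : ∀ x y, r x y → f x.1 x.2 = f y.1 y.2) :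
    ∃ U : Quot r → K, ∀ k, k ≤ w.length → ∀ b, twL w r 1 k b U = f k b := by
  refine ⟨Quot.lift (fun x => f x.1 x.2) hf, ?_⟩
  intro k hk b
  simp only [twL, LinearMap.smul_apply, smul_eq_mul, one_zpow, one_mul]
  rw [valL_of_lt (by omega)]

theorem corner_of_tw {w : List Pass} {f : ℕ → Bool → K} (hf : TwCorner w 1 f) {x y : ℕ × Bool}
    (h : Corner w x y) : f x.1 x.2 = f y.1 y.2 := by
  cases h with
  | northwest i j p hi hj hp =>
    have := (hf i j p hi hj hp).1; simpa using this
  | northeast i j p hi hj hp =>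
    have := (hf i j p hi hj hp).2.1; simpa using this
  | southeast i j p hi hj hp =>
    have := (hf i j p hi hj hp).2.2.1; simpa using this
  | southwest i j p hi hj hp =>
    have := (hf i j p hi hj hp).2.2.2; simpa using this

theorem closed_card {w : List Pass} (hw : IsCode w)
    (h : ∀ (z : K) (δ : Pass → K), ∃ f : ℕ → Bool → K, TwCorner w 1 f ∧
      (∀ b, f 0 b = f w.length b) ∧ jump f 0 = z ∧
      ∀ (i : ℕ) (p : Pass), w[i]? = some p → p.isOver = true →
        jump f (i + 1) - jump f i = δ p) :
    Nat.card (ClosedRegion w) = crossings w + 2 := by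
  have hT : (1 : K) ≠ 0 := one_ne_zero
  have : Nonempty (Quot (ClosedAdj w)) := ⟨Quot.mk _ (0, true)⟩
  have hcard := card_of_surj
      ((jumpL w (ClosedAdj w) (1 : K) 0).prod (changeL w (ClosedAdj w) 1)) ?_ ?_ ?_
  · rw [Module.finrank_prod, finrank_ov hw, finrank_self] at hcard
    have h2 : Nat.card (Quot (ClosedAdj w)) = Nat.card (ClosedRegion w) := rfl
    omega
  · intro U hU
    rw [LinearMap.prod_apply, Function.prod_apply, Prod.mk_eq_zero] at hU
    obtain ⟨h0, h1⟩ := hU
    rw [jumpL_apply] at h0
    have h2 := change_of (K := K) hw (f := fun k b => twL w (ClosedAdj w) 1 k b U)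
      (δ := fun _ => 0) (fun p => congrFun h1 p)
    have hf := twCorner hT (fun x y h => closed_corner x y h) U
    have h3 := jump_eq_zero hw hT hf h0 h2
    have h4 := const_of_jump hw hT hf h3
    refine ⟨twL w (ClosedAdj w) 1 0 true U, ?_⟩
    apply eq_of_tw hT
    intro k hk b
    have h6 := h4 k hk b
    rw [h6]
    simp only [twL, LinearMap.smul_apply, smul_eq_mul, one_zpow, one_mul]
    rw [valL_const (by omega)]
  · rw [LinearMap.prod_apply, Function.prod_apply, Prod.mk_eq_zero]
    have hj : ∀ k, k ≤ w.length →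
        jump (fun k b => twL w (ClosedAdj w) (1 : K) k b (fun _ => 1)) k = 0 := by
      intro k hk
      simp only [jump, twL, LinearMap.smul_apply, smul_eq_mul, one_zpow, one_mul]
      rw [valL_const (by omega), valL_const (by omega), sub_self]
    refine ⟨?_, ?_⟩
    · rw [jumpL_apply]
      exact hj 0 (by omega)
    · funext p
      rw [changeL_apply]
      have h1 := lt_of_get (get_idxOf (mem_ov.1 p.2).1)
      rw [hj _ (by omega), hj _ (by omega)]
      simp
  · rintro ⟨z, δ⟩
    obtain ⟨f, hf, h0, h1, h2⟩ := h z (fun p => if hp : p ∈ ov w then δ ⟨p, hp⟩ else 0)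
    obtain ⟨U, hU⟩ := descend (r := ClosedAdj w) f (by
      rintro x y (hxy | ⟨hxy, hx, hy⟩)
      · exact corner_of_tw hf hxy
      · rw [hx, hy, hxy]
        exact h0 _)
    refine ⟨U, ?_⟩
    rw [LinearMap.prod_apply, Function.prod_apply, Prod.mk.injEq]
    have hj : ∀ k, k ≤ w.length → jump (fun k b => twL w (ClosedAdj w) (1 : K) k b U) k =
        jump f k := by
      intro k hk
      simp only [jump]
      rw [hU k hk, hU k hk]
    refine ⟨?_, ?_⟩
    · rw [jumpL_apply, hj 0 (by omega), h1]
    · funext p
      have h3 := get_idxOf (mem_ov.1 p.2).1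
      have h4 := lt_of_get h3
      rw [changeL_apply, hj _ (by omega), hj _ (by omega), h2 _ _ h3 (mem_ov.1 p.2).2,
        dif_pos p.2]

theorem arc_kernel {w : List Pass} (hw : IsCode w) (U : Quot (ArcAdj w) → K)
    (hU : changeL w (ArcAdj w) (1 : K) U = 0) : ∃ c, U = fun _ => c := by
  have hT : (1 : K) ≠ 0 := one_ne_zero
  have h2 := change_of (K := K) hw (f := fun k b => twL w (ArcAdj w) 1 k b U)
    (δ := fun _ => 0) (fun p => congrFun hU p)
  have hf := twCorner hT (fun x y h => arc_corner x y h) U
  have h0 : jump (fun k b => twL w (ArcAdj w) 1 k b U) 0 = 0 := by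
    have := arc_end hT U (k := 0) (Or.inl rfl)
    simp only [jump]
    rw [this]
    ring
  have h3 := jump_eq_zero hw hT hf h0 h2
  have h4 := const_of_jump hw hT hf h3
  refine ⟨twL w (ArcAdj w) 1 0 true U, ?_⟩
  apply eq_of_tw hT
  intro k hk b
  have h6 := h4 k hk b
  rw [h6]
  simp only [twL, LinearMap.smul_apply, smul_eq_mul, one_zpow, one_mul]
  rw [valL_const (by omega)]

theorem arc_card {w : List Pass} (hw : IsCode w)
    (h : ∀ (δ : Pass → K), ∃ f : ℕ → Bool → K, TwCorner w 1 f ∧
      f 0 true = f 0 false ∧ f w.length true = f w.length false ∧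
      ∀ (i : ℕ) (p : Pass), w[i]? = some p → p.isOver = true →
        jump f (i + 1) - jump f i = δ p) :
    Nat.card (ArcRegion w) = crossings w + 1 := by
  have hT : (1 : K) ≠ 0 := one_ne_zero
  have : Nonempty (Quot (ArcAdj w)) := ⟨Quot.mk _ (0, true)⟩
  have hcard := card_of_surj (changeL w (ArcAdj w) (1 : K)) (arc_kernel hw) ?_ ?_
  · rw [finrank_ov hw] at hcard
    exact hcard
  · have hj : ∀ k, k ≤ w.length →
        jump (fun k b => twL w (ArcAdj w) (1 : K) k b (fun _ => 1)) k = 0 := by
      intro k hk
      simp only [jump, twL, LinearMap.smul_apply, smul_eq_mul, one_zpow, one_mul]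
      rw [valL_const (by omega), valL_const (by omega), sub_self]
    funext p
    rw [changeL_apply]
    have h1 := lt_of_get (get_idxOf (mem_ov.1 p.2).1)
    rw [hj _ (by omega), hj _ (by omega)]
    simp
  · intro δ
    obtain ⟨f, hf, h0, h1, h2⟩ := h (fun p => if hp : p ∈ ov w then δ ⟨p, hp⟩ else 0)
    obtain ⟨U, hU⟩ := descend (r := ArcAdj w) f (by
      rintro ⟨x, b⟩ ⟨y, c⟩ (hxy | ⟨hxy, hx⟩)
      · exact corner_of_tw hf hxy
      · simp only at hxy hx
        subst hxy
        have h3 : f x true = f x false := by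
          rcases hx with hx | hx
          · rw [hx]; exact h0
          · rw [hx]; exact h1
        cases b <;> cases c <;> simp [h3])
    refine ⟨U, ?_⟩
    have hj : ∀ k, k ≤ w.length → jump (fun k b => twL w (ArcAdj w) (1 : K) k b U) k =
        jump f k := by
      intro k hk
      simp only [jump]
      rw [hU k hk, hU k hk]
    funext p
    have h3 := get_idxOf (mem_ov.1 p.2).1
    have h4 := lt_of_get h3
    rw [changeL_apply, hj _ (by omega), hj _ (by omega), h2 _ _ h3 (mem_ov.1 p.2).2,
      dif_pos p.2]

end Pool.Agent.H77.Kd
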